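import Pool.Agent.Helper72.CommCA.Dens
import Pool.Agent.Helper17.CommC1.Coc

/-!
# The derivative cocycles
-/

open Set Filter Topology Real

namespace CommCA

open CommC1 (ghat gam gam_pos gam_le floor_ghat sin_sq_ghat sin_add_one den_pos strictMono_ghat
  ghat_half abs_gam_sub_one_le cocF_far_aux cocG_far_aux)

/-- The derivative cocycle of the translation. -/
noncomputable def cocF (μ N : ℕ) (u : ℝ) : ℝ := dens μ N (u + 1) * 1 / dens μ N u

/-- The derivative cocycle of `ghat`. -/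
noncomputable def cocG (μ N : ℕ) (u : ℝ) : ℝ := dens μ N (ghat u) * (1 / gam u) / dens μ N u

theorem amp_add_one (μ N : ℕ) (u : ℝ) :
    amp μ N (u + 1) = A μ (ix μ N (⌊2 * u⌋ + 2)) := by
  unfold amp
  rw [show (2 : ℝ) * (u + 1) = 2 * u + (2 : ℤ) by push_cast; ring, Int.floor_add_intCast]

theorem cocF_eq (μ N : ℕ) (u : ℝ) :
    cocF μ N u = (1 + (amp μ N u ^ 2 - 1) * sin (2 * π * u) ^ 2) /
      (1 + (amp μ N (u + 1) ^ 2 - 1) * sin (2 * π * u) ^ 2) := by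
  have h1 := den_pos (amp μ N u) (sin (2 * π * u) ^ 2) (one_le_amp μ N u) (sq_nonneg _)
  have h2 := den_pos (amp μ N (u + 1)) (sin (2 * π * u) ^ 2) (one_le_amp μ N _) (sq_nonneg _)
  unfold cocF dens
  rw [sin_add_one]
  field_simp

theorem amp_ghat (μ N : ℕ) (u : ℝ) : amp μ N (ghat u) = amp μ N u := by
  unfold amp
  rw [floor_ghat]

theorem cocG_eq (μ N : ℕ) (u : ℝ) :
    cocG μ N u = (1 + (amp μ N u ^ 2 - 1) * sin (2 * π * u) ^ 2) /
      (gam u + (amp μ N u ^ 2 - 1) * sin (2 * π * u) ^ 2) := by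
  have h1 := den_pos (amp μ N u) (sin (2 * π * u) ^ 2) (one_le_amp μ N u) (sq_nonneg _)
  have hg := gam_pos u
  have hA := one_le_amp μ N u
  have h3 : 0 ≤ (amp μ N u ^ 2 - 1) * sin (2 * π * u) ^ 2 :=
    mul_nonneg (by nlinarith) (sq_nonneg _)
  have h2 : 0 < gam u + (amp μ N u ^ 2 - 1) * sin (2 * π * u) ^ 2 := by linarith
  unfold cocG dens
  rw [amp_ghat, sin_sq_ghat]
  have h4 : 1 + (amp μ N u ^ 2 - 1) * (sin (2 * π * u) ^ 2 / gam u) =
      (gam u + (amp μ N u ^ 2 - 1) * sin (2 * π * u) ^ 2) / gam u := by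
    field_simp
  rw [h4]
  field_simp

theorem amp_sq_le (μ N : ℕ) (u : ℝ) : amp μ N (u + 1) ^ 2 ≤ 256 * amp μ N u ^ 2 := by
  rw [amp_add_one]
  unfold amp
  have h := ix_add_two μ N ⌊2 * u⌋
  have := A_ratio μ _ _ h.1 1 one_pos (by
    have : (0 : ℝ) ≤ (ix μ N ⌊2 * u⌋ : ℝ) := Nat.cast_nonneg _
    linarith)
  norm_num at this
  exact this

theorem cocF_ge (μ N : ℕ) (u : ℝ) : 1 / 256 ≤ cocF μ N u := by
  rw [cocF_eq]
  have hA := one_le_amp μ N u
  have hA' := one_le_amp μ N (u + 1)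
  have h0 : 0 ≤ sin (2 * π * u) ^ 2 := sq_nonneg _
  have h1 : sin (2 * π * u) ^ 2 ≤ 1 := sin_sq_le_one _
  have h2 := den_pos (amp μ N (u + 1)) (sin (2 * π * u) ^ 2) hA' h0
  rw [div_le_div_iff₀ (by norm_num) h2]
  have hsq := amp_sq_le μ N u
  nlinarith [mul_le_mul_of_nonneg_right hsq h0]

theorem cocG_ge (μ N : ℕ) (u : ℝ) : 1 / 4 ≤ cocG μ N u := by
  rw [cocG_eq]
  have hg := gam_pos u
  have hg4 := gam_le u
  have hA := one_le_amp μ N u
  have h3 : 0 ≤ (amp μ N u ^ 2 - 1) * sin (2 * π * u) ^ 2 :=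
    mul_nonneg (by nlinarith) (sq_nonneg _)
  rw [div_le_div_iff₀ (by norm_num) (by linarith)]
  linarith

theorem cocF_near {μ N M : ℕ} (h : N ≤ M) (u : ℝ) (h0 : -((N + 1 : ℝ) / 2) ≤ u)
    (h1 : u < (N - 1 : ℝ) / 2) : cocF μ M u = cocF μ N u := by
  unfold cocF
  rw [dens_eq_of_le h u h0 (by linarith), dens_eq_of_le h (u + 1) (by linarith) (by linarith)]

theorem cocG_near {μ N M : ℕ} (h : N ≤ M) (u : ℝ) (h0 : -((N + 1 : ℝ) / 2) ≤ u)
    (h1 : u < (N - 1 : ℝ) / 2) : cocG μ M u = cocG μ N u := by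
  unfold cocG
  have e0 : -((N + 1 : ℝ) / 2) ≤ ghat u := by
    have h3 := strictMono_ghat.monotone h0
    have h4 := ghat_half (-(N + 1 : ℤ))
    push_cast at h4
    rw [show -((N + 1 : ℝ) / 2) = (-1 + -(N : ℝ)) / 2 by ring] at h3 ⊢
    rw [show (-(1 : ℝ) + -(N : ℝ)) / 2 = (-((N : ℝ) + 1)) / 2 by ring] at h3 ⊢
    rw [h4] at h3
    exact h3
  have e1 : ghat u < (N + 1 : ℝ) / 2 := by
    have h3 := strictMono_ghat (show u < ((N + 1 : ℤ) : ℝ) / 2 by push_cast; linarith)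
    rw [ghat_half] at h3
    push_cast at h3
    exact h3
  rw [dens_eq_of_le h u h0 (by linarith), dens_eq_of_le h (ghat u) e0 e1]

/-- The error bound. -/
noncomputable def del (N : ℕ) : ℝ := ((1 + 1 / ((N : ℝ) - 3)) ^ 8 - 1) + 3 / ((N : ℝ) - 1)

theorem tendsto_del : Tendsto del atTop (𝓝 0) := by
  have h1 : Tendsto (fun N : ℕ => (N : ℝ) - 3) atTop atTop :=
    tendsto_atTop_add_const_right _ _ tendsto_natCast_atTop_atTop
  have h2 : Tendsto (fun N : ℕ => (N : ℝ) - 1) atTop atTop :=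
    tendsto_atTop_add_const_right _ _ tendsto_natCast_atTop_atTop
  have h3 : Tendsto (fun N : ℕ => 1 / ((N : ℝ) - 3)) atTop (𝓝 0) := h1.const_div_atTop 1
  have h4 : Tendsto (fun N : ℕ => 3 / ((N : ℝ) - 1)) atTop (𝓝 0) := h2.const_div_atTop 3
  have h5 := (((h3.const_add 1).pow 8).sub_const 1).add h4
  have h6 : ((1 + 0 : ℝ) ^ 8 - 1) + 0 = 0 := by norm_num
  rw [h6] at h5
  exact h5

theorem exists_del (μ : ℕ) : ∃ δ : ℕ → ℝ, ∃ N₀ : ℕ, Tendsto δ atTop (𝓝 0) ∧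
    ∀ N M : ℕ, N₀ ≤ N → N ≤ M → ∀ u : ℝ, -(((M + Q μ M : ℕ) : ℝ) / 2) ≤ u →
      u ≤ ((M + Q μ M : ℕ) : ℝ) / 2 →
      (u < -((N + 1 : ℝ) / 2) ∨ (N - 1 : ℝ) / 2 ≤ u) →
      |cocF μ M u - 1| ≤ δ N ∧ |cocG μ M u - 1| ≤ δ N := by
  refine ⟨del, 4, tendsto_del, fun N M hN hNM u hu0 hu1 hu => ?_⟩
  set n := ⌊2 * u⌋ with hn
  have hn0 : -((M : ℤ) + Q μ M) ≤ n := by
    rw [hn, Int.le_floor]; push_cast at hu0 ⊢; linarith
  have hn1 : n ≤ (M : ℤ) + Q μ M := by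
    have h1 := Int.floor_le (2 * u)
    rw [← hn] at h1
    have h2 : (n : ℝ) ≤ (M : ℝ) + Q μ M := by push_cast at hu1; linarith
    exact_mod_cast h2
  have hn2 : n ≤ -(N + 2 : ℤ) ∨ (N : ℤ) - 1 ≤ n := by
    rcases hu with hu | hu
    · left
      have h1 := Int.floor_le (2 * u)
      rw [← hn] at h1
      have h2 : (n : ℝ) < -(N + 1 : ℝ) := by linarith
      have h3 : n < -(N + 1 : ℤ) := by exact_mod_cast h2
      omega
    · right
      rw [hn, Int.le_floor]; push_cast; linarith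
  have hk := kap_far (Q_pos μ M) hNM (by omega) n hn0 hn1 hn2
  have hd := ix_add_two μ M n
  have hc := ix_cast μ M n
  have hkN : N ≤ ix μ M n + 1 := by omega
  have hkR : (N : ℝ) ≤ (ix μ M n : ℝ) + 1 := by exact_mod_cast hkN
  have hk2 : N ≤ ix μ M (n + 2) + 3 := by omega
  have hkR2 : (N : ℝ) ≤ (ix μ M (n + 2) : ℝ) + 3 := by exact_mod_cast hk2
  have hNR : (4 : ℝ) ≤ N := by exact_mod_cast hN
  set K : ℝ := (N : ℝ) - 3 with hK
  have hK1 : 1 ≤ K := by rw [hK]; linarith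
  have hK0 : 0 < K := by linarith
  have hη : 0 ≤ (1 + 1 / K) ^ 8 - 1 := by
    have : 1 ≤ 1 + 1 / K := by
      have : 0 ≤ 1 / K := by positivity
      linarith
    have := one_le_pow₀ this (n := 8)
    linarith
  have hr2 : 0 ≤ 3 / ((N : ℝ) - 1) := by
    apply div_nonneg (by norm_num); linarith
  have hampn : amp μ M u = A μ (ix μ M n) := rfl
  have hamp' : amp μ M (u + 1) = A μ (ix μ M (n + 2)) := amp_add_one μ M u
  constructor
  · rw [cocF_eq]
    refine (cocF_far_aux _ _ _ ((1 + 1 / K) ^ 8 - 1) (one_le_amp _ _ _) (one_le_amp _ _ _)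
      (sq_nonneg _) (sin_sq_le_one _) hη ?_ ?_).trans ?_
    · rw [hampn, hamp', show 1 + ((1 + 1 / K) ^ 8 - 1) = (1 + 1 / K) ^ 8 by ring]
      exact A_ratio μ _ _ hd.2 K hK0 (by linarith)
    · rw [hampn, hamp', show 1 + ((1 + 1 / K) ^ 8 - 1) = (1 + 1 / K) ^ 8 by ring]
      exact A_ratio μ _ _ hd.1 K hK0 (by linarith)
    · unfold del
      linarith
  · rw [cocG_eq]
    have hA2 : ((N : ℝ) + 1) / 2 ≤ amp μ M u := by
      rw [hampn]
      have := A_ge μ (ix μ M n)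
      linarith
    have hA1 : 1 < amp μ M u := by linarith
    have hcos : cos (2 * π * u) ≤ 1 := cos_le_one _
    have hh := cocG_far_aux (amp μ M u) |sin (2 * π * u)| (cos (2 * π * u)) hA1 (abs_nonneg _)
      hcos (gam u) (by unfold gam; rw [sq_abs]) (gam_pos u) (abs_gam_sub_one_le u)
    rw [sq_abs] at hh
    refine hh.trans ?_
    have h7 : 3 / (2 * (amp μ M u - 1)) ≤ 3 / ((N : ℝ) - 1) := by
      apply div_le_div_of_nonneg_left (by norm_num) (by linarith) (by linarith)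
    unfold del
    linarith

end CommCA
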