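import Pool.Agent.Helper72.CommCA.Lift

/-!
# The pair and its approximations
-/

open Set Filter Topology

namespace CommCA

open CommC1 (IsLift ghat gam gam_pos ghat_add_one gam_add_one
  continuous_gam hasDerivAt_ghat ghat_zero floor_ghat quarter_lt_ghat ghat_neg_quarter_lt)

/-- The lift of the first map at level `N`. -/
noncomputable def FN (μ N : ℕ) (x : ℝ) : ℝ := eN μ N ((eN μ N).symm x + 1)

/-- Its derivative. -/
noncomputable def DN (μ N : ℕ) (x : ℝ) : ℝ := cocF μ N ((eN μ N).symm x)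

/-- The lift of the second map at level `N`. -/
noncomputable def GN (μ N : ℕ) (x : ℝ) : ℝ := eN μ N (ghat ((eN μ N).symm x))

/-- Its derivative. -/
noncomputable def EN (μ N : ℕ) (x : ℝ) : ℝ := cocG μ N ((eN μ N).symm x)

theorem exists_data (μ : ℕ) : ∃ (s : ℕ) (F₀ D₀ G₀ E₀ : ℝ → ℝ), IsLift F₀ D₀ ∧ IsLift G₀ E₀ ∧
    (∀ n, IsLift (FN μ (s + n)) (DN μ (s + n))) ∧ (∀ n, IsLift (GN μ (s + n)) (EN μ (s + n))) ∧
    (∀ x, F₀ (G₀ x) = G₀ (F₀ x)) ∧
    (∀ n x, FN μ (s + n) (GN μ (s + n) x) = GN μ (s + n) (FN μ (s + n) x)) ∧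
    TendstoUniformly (fun n => FN μ (s + n)) F₀ atTop ∧
    TendstoUniformly (fun n => DN μ (s + n)) D₀ atTop ∧
    TendstoUniformly (fun n => GN μ (s + n)) G₀ atTop ∧
    TendstoUniformly (fun n => EN μ (s + n)) E₀ atTop ∧
    ∃ x₀ y, x₀ < G₀ x₀ ∧ G₀ y < y ∧ (∀ j, F₀^[j] x₀ < y) ∧
      ∀ n, ∃ j, y < (FN μ (s + n))^[j] x₀ := by
  obtain ⟨δ, N₀, hδ, hfar⟩ := exists_del μ
  set s := max N₀ 2 with hs
  have hsN : N₀ ≤ s := le_max_left _ _
  have hs2 : 2 ≤ s := le_max_right _ _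
  have hs2' : (2 : ℝ) ≤ s := by exact_mod_cast hs2
  have fa : ∀ u : ℝ, (fun u : ℝ => u + 1) (u + 1) = (fun u : ℝ => u + 1) u + 1 := fun u => rfl
  obtain ⟨F₀, D₀, f1, f2, f3, f4, f5⟩ := exists_limit_T μ (fun u => u + 1) (fun _ => 1)
    fa (fun _ => rfl) (fun _ => one_pos) continuous_const
    (fun u => (hasDerivAt_id u).add_const 1) (cocF μ) (fun N u => rfl) cocF_near δ hδ s
    (fun N M h1 h2 u h3 h4 h5 => (hfar N M (hsN.trans h1) h2 u h3 h4 h5).1) (1 / 256)
    (by norm_num) (cocF_ge μ) (by linarith) (by linarith)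
  obtain ⟨G₀, E₀, g1, g2, g3, g4, g5⟩ := exists_limit_T μ ghat (fun u => 1 / gam u)
    ghat_add_one (fun u => by simp only [gam_add_one]) (fun u => one_div_pos.mpr (gam_pos u))
    (continuous_const.div continuous_gam fun u => (gam_pos u).ne')
    hasDerivAt_ghat (cocG μ) (fun N u => rfl) cocG_near δ hδ s
    (fun N M h1 h2 u h3 h4 h5 => (hfar N M (hsN.trans h1) h2 u h3 h4 h5).2) (1 / 4)
    (by norm_num) (cocG_ge μ) (by rw [ghat_zero]; linarith) (by rw [ghat_zero]; linarith)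
  have liftF : ∀ n, IsLift (fun x => eN μ (s + n) ((eN μ (s + n)).symm x + 1))
      (fun x => cocF μ (s + n) ((eN μ (s + n)).symm x)) := fun n =>
    eN_lift μ (s + n) (fun u => u + 1) (fun _ => 1)
      fa (fun _ => rfl) (fun _ => one_pos) continuous_const
      (fun u => (hasDerivAt_id u).add_const 1)
  have liftG : ∀ n, IsLift (fun x => eN μ (s + n) (ghat ((eN μ (s + n)).symm x)))
      (fun x => cocG μ (s + n) ((eN μ (s + n)).symm x)) := fun n =>
    eN_lift μ (s + n) ghat (fun u => 1 / gam u)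
      ghat_add_one (fun u => by simp only [gam_add_one])
      (fun u => one_div_pos.mpr (gam_pos u))
      (continuous_const.div continuous_gam fun u => (gam_pos u).ne') hasDerivAt_ghat
  have comm : ∀ n x, eN μ (s + n) ((eN μ (s + n)).symm (eN μ (s + n) (ghat ((eN μ (s + n)).symm x))) + 1)
      = eN μ (s + n) (ghat ((eN μ (s + n)).symm (eN μ (s + n) ((eN μ (s + n)).symm x + 1)))) := by
    intro n x
    rw [OrderIso.symm_apply_apply, OrderIso.symm_apply_apply, ghat_add_one]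
  have comm0 : ∀ x, F₀ (G₀ x) = G₀ (F₀ x) := by
    intro x
    have t1 := f2.tendsto_comp (f1.continuous.continuousAt (x := G₀ x)) (g4 x)
    have t2 := g2.tendsto_comp (g1.continuous.continuousAt (x := F₀ x)) (f4 x)
    refine tendsto_nhds_unique t1 (t2.congr fun n => ?_)
    exact (comm n x).symm
  -- the base points
  have fl1 : ⌊2 * ghat (1 / 4)⌋ = 0 := by
    rw [floor_ghat]; norm_num
  have fl2 : ⌊2 * ghat (-1 / 4)⌋ = -1 := by
    rw [floor_ghat]
    rw [Int.floor_eq_iff]; norm_num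
  rw [Int.floor_eq_iff] at fl1 fl2
  norm_num at fl1 fl2
  have hx : eN μ s (1 / 4) < G₀ (eN μ s (1 / 4)) := by
    rw [g5 s (1 / 4) (by linarith) (by linarith) (by linarith [fl1.1]) (by linarith [fl1.2])]
    exact (eN μ s).strictMono quarter_lt_ghat
  have hz : G₀ (eN μ s (-1 / 4)) < eN μ s (-1 / 4) := by
    rw [g5 s (-1 / 4) (by linarith) (by linarith) (by linarith [fl2.1]) (by linarith [fl2.2])]
    exact (eN μ s).strictMono ghat_neg_quarter_lt
  have hy : G₀ (eN μ s (-1 / 4) + 1) < eN μ s (-1 / 4) + 1 := by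
    rw [g1.deg]; linarith
  have hzpos : 0 < eN μ s (-1 / 4) := by
    rw [← eN_bot μ s]
    apply (eN μ s).strictMono
    have := hp_ge μ s
    linarith
  have hiter : ∀ (j M : ℕ), s ≤ M → (1 / 4 + j : ℝ) < (M + 1) / 2 →
      F₀^[j] (eN μ s (1 / 4)) = eN μ M (1 / 4 + j) := by
    intro j
    induction j with
    | zero =>
      intro M hM _
      simp only [Function.iterate_zero, id, Nat.cast_zero, add_zero]
      rw [eN_eq hM _ (by linarith) (by linarith)]
    | succ j ih =>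
      intro M hM hj
      push_cast at hj
      have hj0 : (0 : ℝ) ≤ j := j.cast_nonneg
      have hM0 : (0 : ℝ) ≤ M := M.cast_nonneg
      rw [Function.iterate_succ_apply', ih M hM (by linarith),
        f5 M (1 / 4 + j) (by linarith) (by linarith) (by linarith) (by linarith)]
      congr 1
      push_cast
      ring
  refine ⟨s, F₀, D₀, G₀, E₀, f1, g1, liftF, liftG, comm0, comm, f2, f3, g2, g3,
    eN μ s (1 / 4), eN μ s (-1 / 4) + 1, hx, hy, fun j => ?_, fun n => ?_⟩
  · have hM : (1 / 4 + j : ℝ) < ((max s (2 * j + 1) : ℕ) + 1) / 2 := by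
      have : ((2 * j + 1 : ℕ) : ℝ) ≤ (max s (2 * j + 1) : ℕ) := by exact_mod_cast le_max_right _ _
      push_cast at this ⊢
      linarith
    rw [hiter j (max s (2 * j + 1)) (le_max_left _ _) hM]
    have h9 : eN μ (max s (2 * j + 1)) (1 / 4 + j) ≤ 1 := by
      have h12 : (0 : ℝ) ≤ ((max s (2 * j + 1) : ℕ) : ℝ) := Nat.cast_nonneg _
      have h14 := hp_ge μ (max s (2 * j + 1))
      have h13 : (1 / 4 + j : ℝ) ≤ hp μ (max s (2 * j + 1)) := by linarith
      exact ((eN μ _).monotone h13).trans (eN_top μ _).le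
    linarith
  · set e := eN μ (s + n) with he
    obtain ⟨j, hj⟩ := exists_nat_gt (e.symm (eN μ s (-1 / 4) + 1) - e.symm (eN μ s (1 / 4)))
    refine ⟨j, ?_⟩
    have h10 := iterate_conj e j (eN μ s (1 / 4))
    show _ < (fun x => e (e.symm x + 1))^[j] (eN μ s (1 / 4))
    rw [h10]
    have h11 : e (e.symm (eN μ s (-1 / 4) + 1)) < e (e.symm (eN μ s (1 / 4)) + j) :=
      e.strictMono (by linarith)
    rwa [OrderIso.apply_symm_apply] at h11

end CommCA
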