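import Pool.Agent.Helper17.CommC1.Defs

/-!
# The space of commuting pairs of `C^r` circle diffeomorphisms, `1 ≤ r < 2`

Definitions for `MP_ac5a3a_an`.
-/

open Set Filter Topology

namespace CommCA

open CommC1 (Circ IsDiffeo)

/-- The pairs of distinct points of the circle. -/
abbrev OffDiag := {z : Circ × Circ // z.1 ≠ z.2}

/-- The bounded continuous function `b` on the set of pairs of distinct points is the Hoelder
quotient `(a (x) - a (y)) / dist (x, y) ^ (r - 1)` of the function `a`. -/
def IsQuot (r : ℝ) (a : C(Circ, ℝ)) (b : BoundedContinuousFunction OffDiag ℝ) : Prop :=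
  ∀ z : OffDiag, a z.1.1 - a z.1.2 = b z * dist z.1.1 z.1.2 ^ (r - 1)

/-- The space of orientation preserving `C^r` diffeomorphisms `f` of the circle with the `C^r`
topology: triples `((f, a), b)` where `f` is an orientation preserving `C^1` diffeomorphism of the
circle, `a` is its derivative and `b` is the Hoelder quotient of exponent `r - 1` of `a`; the
topology is uniform convergence of `f`, `a` and `b`. -/
abbrev DiffR (r : ℝ) := {p : (C(Circ, Circ) × C(Circ, ℝ)) × BoundedContinuousFunction OffDiag ℝ //
  IsDiffeo p.1 ∧ IsQuot r p.1.2 p.2}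

/-- The map of the circle given by an element of `DiffR r`. -/
def map {r : ℝ} (p : DiffR r) : C(Circ, Circ) := p.1.1.1

/-- The space of commuting pairs. -/
abbrev CommPairsR (r : ℝ) :=
  {q : DiffR r × DiffR r // ∀ x : Circ, map q.1 (map q.2 x) = map q.2 (map q.1 x)}

end CommCA
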