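import Pool.Agent.Helper72.CommCA.Kap

/-!
# The amplitude and the density
-/

open Set Filter Topology Real

namespace CommCA

theorem Q_pos (μ N : ℕ) : 0 < Q μ N := by
  have := Q_ge μ N
  omega

/-- The index at level `N`. -/
def ix (μ N : ℕ) (n : ℤ) : ℕ := (kap (Q μ N) N n).toNat

theorem ix_cast (μ N : ℕ) (n : ℤ) : ((ix μ N n : ℕ) : ℤ) = kap (Q μ N) N n :=
  Int.toNat_of_nonneg (kap_nonneg _ _ (Q_pos μ N) n)

theorem ix_le (μ N : ℕ) (n : ℤ) : ix μ N n ≤ N := by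
  have h1 := ix_cast μ N n
  have h2 := kap_le (Q μ N) N n
  omega

theorem ix_add_two (μ N : ℕ) (n : ℤ) :
    ix μ N (n + 2) ≤ ix μ N n + 2 ∧ ix μ N n ≤ ix μ N (n + 2) + 2 := by
  have h1 := ix_cast μ N n
  have h2 := ix_cast μ N (n + 2)
  have h3 := abs_kap_add_two (Q μ N) N (Q_pos μ N) n
  rw [abs_le] at h3
  omega

/-- The amplitude. -/
noncomputable def amp (μ N : ℕ) (u : ℝ) : ℝ := A μ (ix μ N ⌊2 * u⌋)

/-- The density. -/
noncomputable def dens (μ N : ℕ) (u : ℝ) : ℝ :=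
  (1 / 2) / (1 + (amp μ N u ^ 2 - 1) * sin (2 * π * u) ^ 2)

theorem one_le_amp (μ N : ℕ) (u : ℝ) : 1 ≤ amp μ N u := one_le_A μ _

theorem amp_le (μ N : ℕ) (u : ℝ) : amp μ N u ≤ A μ N := A_mono μ (ix_le μ N _)

theorem amp_add_period (μ N : ℕ) (u : ℝ) : amp μ N (u + ((N + Q μ N : ℕ) : ℝ)) = amp μ N u := by
  have h : ⌊2 * (u + ((N + Q μ N : ℕ) : ℝ))⌋ = ⌊2 * u⌋ + (2 * N + 2 * (Q μ N : ℤ)) := by
    have h1 : 2 * (u + ((N + Q μ N : ℕ) : ℝ)) = 2 * u + ((2 * N + 2 * (Q μ N : ℤ) : ℤ) : ℝ) := by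
      push_cast
      ring
    rw [h1, Int.floor_add_intCast]
  unfold amp ix
  rw [h, kap_add_period]

theorem one_le_dens_den (μ N : ℕ) (u : ℝ) :
    1 ≤ 1 + (amp μ N u ^ 2 - 1) * sin (2 * π * u) ^ 2 := by
  have h1 := one_le_amp μ N u
  have h2 : 0 ≤ amp μ N u ^ 2 - 1 := by nlinarith
  have h3 := mul_nonneg h2 (sq_nonneg (sin (2 * π * u)))
  linarith

theorem dens_pos (μ N : ℕ) (u : ℝ) : 0 < dens μ N u := by
  have h := one_le_dens_den μ N u
  unfold dens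
  exact div_pos (by norm_num) (by linarith)

theorem dens_add_period (μ N : ℕ) (u : ℝ) :
    dens μ N (u + ((N + Q μ N : ℕ) : ℝ)) = dens μ N u := by
  have h : sin (2 * π * (u + ((N + Q μ N : ℕ) : ℝ))) = sin (2 * π * u) := by
    have h1 : 2 * π * (u + ((N + Q μ N : ℕ) : ℝ)) =
        2 * π * u + ((N + Q μ N : ℕ) : ℝ) * (2 * π) := by
      ring
    rw [h1, sin_add_nat_mul_two_pi]
  unfold dens
  rw [h, amp_add_period]

theorem continuous_dens_num (μ N : ℕ) :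
    Continuous fun u : ℝ => (amp μ N u ^ 2 - 1) * sin (2 * π * u) ^ 2 := by
  rw [continuous_iff_continuousAt]
  intro u
  by_cases hu : ((⌊2 * u⌋ : ℤ) : ℝ) = 2 * u
  · -- `2 u` is an integer
    have hsin : sin (2 * π * u) = 0 := by
      have h1 : 2 * π * u = ((⌊2 * u⌋ : ℤ) : ℝ) * π := by
        rw [hu]
        ring
      rw [h1]
      exact sin_int_mul_pi _
    have h0 : (amp μ N u ^ 2 - 1) * sin (2 * π * u) ^ 2 = 0 := by
      rw [hsin]
      ring
    show Tendsto _ _ (𝓝 ((amp μ N u ^ 2 - 1) * sin (2 * π * u) ^ 2))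
    rw [h0]
    have hC : Tendsto (fun v : ℝ => (A μ N) ^ 2 *
        sin (2 * π * v) ^ 2) (𝓝 u) (𝓝 0) := by
      have h2 : Continuous fun v : ℝ => (A μ N) ^ 2 *
          sin (2 * π * v) ^ 2 := by fun_prop
      have h3 := h2.tendsto u
      rw [hsin] at h3
      simpa using h3
    refine squeeze_zero (fun v => ?_) (fun v => ?_) hC
    · have := one_le_dens_den μ N v
      linarith
    · refine mul_le_mul_of_nonneg_right ?_ (sq_nonneg _)
      have h1 := one_le_amp μ N v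
      have h2 := amp_le μ N v
      nlinarith
  · -- the floor is locally constant
    have h1 : ((⌊2 * u⌋ : ℤ) : ℝ) < 2 * u := lt_of_le_of_ne (Int.floor_le _) hu
    have h2 : 2 * u < ((⌊2 * u⌋ : ℤ) : ℝ) + 1 := Int.lt_floor_add_one _
    have h3 : ∀ᶠ v in 𝓝 u, ⌊2 * v⌋ = ⌊2 * u⌋ := by
      have hc : Continuous fun v : ℝ => 2 * v := by fun_prop
      have e1 : ∀ᶠ v in 𝓝 u, ((⌊2 * u⌋ : ℤ) : ℝ) < 2 * v :=
        hc.continuousAt.eventually_const_lt h1
      have e2 : ∀ᶠ v in 𝓝 u, 2 * v < ((⌊2 * u⌋ : ℤ) : ℝ) + 1 :=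
        hc.continuousAt.eventually_lt_const h2
      filter_upwards [e1, e2] with v hv1 hv2
      exact Int.floor_eq_iff.2 ⟨hv1.le, hv2⟩
    have h4 : (fun v : ℝ => (amp μ N u ^ 2 - 1) * sin (2 * π * v) ^ 2) =ᶠ[𝓝 u]
        fun v : ℝ => (amp μ N v ^ 2 - 1) * sin (2 * π * v) ^ 2 := by
      filter_upwards [h3] with v hv
      have : amp μ N v = amp μ N u := by
        unfold amp
        rw [hv]
      rw [this]
    have h5 : Continuous fun v : ℝ => (amp μ N u ^ 2 - 1) * sin (2 * π * v) ^ 2 := by fun_prop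
    exact h5.continuousAt.congr h4

theorem continuous_dens (μ N : ℕ) : Continuous (dens μ N) := by
  unfold dens
  refine continuous_const.div (continuous_const.add (continuous_dens_num μ N)) (fun u => ?_)
  have := one_le_dens_den μ N u
  linarith

theorem dens_eq_of_le {μ N M : ℕ} (h : N ≤ M) (u : ℝ) (h0 : -((N + 1 : ℝ) / 2) ≤ u)
    (h1 : u < (N + 1 : ℝ) / 2) : dens μ M u = dens μ N u := by
  have h2 : -(N + 1 : ℤ) ≤ ⌊2 * u⌋ := by
    rw [Int.le_floor]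
    push_cast
    linarith
  have h3 : ⌊2 * u⌋ ≤ N := by
    have : ⌊2 * u⌋ < (N : ℤ) + 1 := by
      rw [Int.floor_lt]
      push_cast
      linarith
    omega
  unfold dens amp ix
  rw [kap_eq_of_le (Q_pos μ N) (Q_pos μ M) h _ h2 h3]

end CommCA
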