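import Pool.Agent.Helper72.CommCA.HolFG

/-!
# Uniform Hoelder estimates
-/

open Set Filter Topology Real

namespace CommCA

open CommC1 (ghat gam gam_pos den_pos cocF_far_aux abs_gam_sub_one_le)

theorem holF_interval (β : ℝ) (hβ0 : 0 ≤ β) (hβ1 : β ≤ 1) (μ : ℕ)
    (hμ : 2 ≤ (1 - β) * ((μ : ℝ) + 1)) (N : ℕ) (n : ℤ) (u v : ℝ) (h0 : (n : ℝ) / 2 ≤ u)
    (huv : u ≤ v) (h1 : v ≤ ((n : ℝ) + 1) / 2) :
    |cocF μ N u - cocF μ N v| ≤
      (1024 * π * (1020 * ((μ : ℝ) + 1))) * (eN μ N v - eN μ N u) ^ β := by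
  have hπ := pi_pos
  have hμ0 : (0 : ℝ) ≤ μ := μ.cast_nonneg
  have hix := ix_add_two μ N n
  set k := ix μ N n with hk
  set l := ix μ N (n + 2) with hl
  set a := A μ k with ha
  set b := A μ l with hb
  have ha1 : 1 ≤ a := one_le_A μ _
  have hb1 : 1 ≤ b := one_le_A μ _
  have hb0 : 0 < b := by linarith
  have hk0 : (0 : ℝ) ≤ k := k.cast_nonneg
  have hl0 : (0 : ℝ) ≤ l := l.cast_nonneg
  have hkl : (k : ℝ) ≤ l + 2 := by exact_mod_cast hix.2
  have hlk : (l : ℝ) ≤ k + 2 := by exact_mod_cast hix.1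
  set K : ℝ := min (k : ℝ) l + 1 with hK
  have hmin : 0 ≤ min (k : ℝ) l := le_min hk0 hl0
  have hK1 : 1 ≤ K := by rw [hK]; linarith
  have hK0 : 0 < K := by linarith
  have hKk : K ≤ (k : ℝ) + 1 := by rw [hK]; linarith [min_le_left (k : ℝ) l]
  have hKl : K ≤ (l : ℝ) + 1 := by rw [hK]; linarith [min_le_right (k : ℝ) l]
  have hl4 : (l : ℝ) + 2 ≤ 4 * K := by
    rw [hK]
    rcases le_total (k : ℝ) l with h | h
    · rw [min_eq_left h]; linarith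
    · rw [min_eq_right h]; linarith
  set η : ℝ := (1 + 1 / K) ^ 8 - 1 with hη
  have hη1 : a ^ 2 ≤ (1 + η) * b ^ 2 := by
    rw [hη, show 1 + ((1 + 1 / K) ^ 8 - 1) = (1 + 1 / K) ^ 8 by ring]
    exact A_ratio μ _ _ hix.2 K hK0 hKl
  have hη2 : b ^ 2 ≤ (1 + η) * a ^ 2 := by
    rw [hη, show 1 + ((1 + 1 / K) ^ 8 - 1) = (1 + 1 / K) ^ 8 by ring]
    exact A_ratio μ _ _ hix.1 K hK0 hKk
  have hinv0 : 0 ≤ 1 / K := by positivity
  have hinv1 : 1 / K ≤ 1 := by rw [div_le_one hK0]; exact hK1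
  have hη255 : η ≤ 255 * (1 / K) := pow8_le _ hinv0 hinv1
  have hη0 : 0 ≤ η := by
    have := one_le_pow₀ (show 1 ≤ 1 + 1 / K by linarith) (n := 8)
    rw [hη]; linarith
  have hab : a ^ 2 ≤ 256 * b ^ 2 := by
    have h2 : 1 + η ≤ 256 := by linarith
    have h3 := mul_le_mul_of_nonneg_right h2 (sq_nonneg b)
    linarith
  have hX : |a ^ 2 - b ^ 2| ≤ η * b ^ 2 := by
    rw [abs_le]
    constructor
    · rcases le_total (a ^ 2) (b ^ 2) with h | h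
      · nlinarith [mul_le_mul_of_nonneg_left h hη0]
      · nlinarith [mul_nonneg hη0 (sq_nonneg b)]
    · linarith
  -- the Lipschitz bound
  obtain ⟨f', hf1, hf2⟩ := fF_bound a b ha1 hb1 hab
  have hlip := mv_le huv (fun t => eN_deriv μ N t) hf1 (K := 1024 * π * |a ^ 2 - b ^ 2| / b)
    (fun t ht => by
      rw [dens_on μ N n t (h0.trans ht.1.le) (ht.2.le.trans h1), ← hk, ← ha]
      exact hf2 t)
  rw [cocF_on μ N n u h0 (huv.trans h1), cocF_on μ N n v (h0.trans huv) h1, ← hk, ← hl, ← ha, ← hb]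
  set d := eN μ N v - eN μ N u with hd
  have hd0 : 0 ≤ d := sub_nonneg.2 ((eN μ N).monotone huv)
  -- the sup bound
  have hs1 := cocF_far_aux a b (sin (2 * π * u) ^ 2) η ha1 hb1 (sq_nonneg _) (sin_sq_le_one _)
    hη0 hη1 hη2
  have hs2 := cocF_far_aux a b (sin (2 * π * v) ^ 2) η ha1 hb1 (sq_nonneg _) (sin_sq_le_one _)
    hη0 hη1 hη2
  set fu := (1 + (a ^ 2 - 1) * sin (2 * π * u) ^ 2) / (1 + (b ^ 2 - 1) * sin (2 * π * u) ^ 2)
  set fv := (1 + (a ^ 2 - 1) * sin (2 * π * v) ^ 2) / (1 + (b ^ 2 - 1) * sin (2 * π * v) ^ 2)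
  have hsup : |fu - fv| ≤ 2 * η := by
    have h4 := abs_sub_le fu 1 fv
    rw [abs_sub_comm 1 fv] at h4
    linarith
  have hlip2 : |fu - fv| ≤ 2 * η * (512 * π * b * d) := by
    refine hlip.trans ?_
    have h5 : 1024 * π * |a ^ 2 - b ^ 2| / b ≤ 1024 * π * (η * b ^ 2) / b := by gcongr
    calc 1024 * π * |a ^ 2 - b ^ 2| / b * d ≤ 1024 * π * (η * b ^ 2) / b * d := by gcongr
      _ = 2 * η * (512 * π * b * d) := by field_simp; ring
  have h6 : |fu - fv| ≤ 2 * η * min 1 (512 * π * b * d) := by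
    rcases le_total 1 (512 * π * b * d) with h | h
    · rw [min_eq_left h, mul_one]; exact hsup
    · rw [min_eq_right h]; exact hlip2
  have h7 := min_le_rpow β (512 * π * b * d) hβ0 hβ1 (by positivity)
  have h8 : (512 * π * b * d) ^ β = (512 * π) ^ β * b ^ β * d ^ β := by
    rw [mul_rpow (by positivity) hd0, mul_rpow (by positivity) hb0.le]
  have hdβ : 0 ≤ d ^ β := rpow_nonneg hd0 _
  have h9 : (512 * π) ^ β ≤ 512 * π := by
    calc (512 * π) ^ β ≤ (512 * π) ^ (1 : ℝ) :=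
          rpow_le_rpow_of_exponent_le (by nlinarith [pi_gt_three]) hβ1
      _ = 512 * π := rpow_one _
  have h10 : b ^ β ≤ ((μ : ℝ) + 1) * ((l : ℝ) + 2) := A_rpow_le β hβ0 hβ1 μ hμ l
  have h11 : η * b ^ β ≤ 1020 * ((μ : ℝ) + 1) := by
    calc η * b ^ β ≤ (255 * (1 / K)) * (((μ : ℝ) + 1) * (4 * K)) := by
          have : ((μ : ℝ) + 1) * ((l : ℝ) + 2) ≤ ((μ : ℝ) + 1) * (4 * K) := by gcongr
          exact mul_le_mul hη255 (h10.trans this) (rpow_nonneg hb0.le _) (by positivity)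
      _ = _ := by field_simp; ring
  calc |fu - fv| ≤ 2 * η * min 1 (512 * π * b * d) := h6
    _ ≤ 2 * η * ((512 * π) ^ β * b ^ β * d ^ β) := by rw [← h8]; gcongr
    _ = 2 * (512 * π) ^ β * (η * b ^ β) * d ^ β := by ring
    _ ≤ 2 * (512 * π) * (1020 * ((μ : ℝ) + 1)) * d ^ β := by gcongr
    _ = _ := by ring

theorem holG_interval (β : ℝ) (hβ0 : 0 ≤ β) (hβ1 : β ≤ 1) (μ : ℕ) (N : ℕ) (n : ℤ) (u v : ℝ)
    (h0 : (n : ℝ) / 2 ≤ u) (huv : u ≤ v) (h1 : v ≤ ((n : ℝ) + 1) / 2) :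
    |cocG μ N u - cocG μ N v| ≤ (640 * π) * (eN μ N v - eN μ N u) ^ β := by
  have hπ := pi_pos
  obtain ⟨ε, hε, hsg⟩ := sin_sign n
  set a := A μ (ix μ N n) with ha
  have ha1 : 1 ≤ a := one_le_A μ _
  obtain ⟨f', hf1, hf2⟩ := fG_bound a ε ha1 hε
  have hlip := mv_le huv (fun t => eN_deriv μ N t) hf1 (K := 640 * π)
    (fun t ht => by
      rw [dens_on μ N n t (h0.trans ht.1.le) (ht.2.le.trans h1), ← ha]
      exact hf2 t)
  have hval : ∀ t, (n : ℝ) / 2 ≤ t → t ≤ ((n : ℝ) + 1) / 2 → cocG μ N t =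
      (1 + (a ^ 2 - 1) * sin (2 * π * t) ^ 2) /
      (1 + sin (2 * π * t) ^ 2 - 2 * (ε * sin (2 * π * t) * cos (2 * π * t)) +
        (a ^ 2 - 1) * sin (2 * π * t) ^ 2) := by
    intro t t0 t1
    rw [cocG_on μ N n t t0 t1, ← ha]
    unfold gam
    rw [hsg t t0 t1]
  rw [← hval u h0 (huv.trans h1), ← hval v (h0.trans huv) h1] at hlip
  set d := eN μ N v - eN μ N u with hd
  have hd0 : 0 ≤ d := sub_nonneg.2 ((eN μ N).monotone huv)
  have hb : ∀ t, (n : ℝ) / 2 ≤ t → t ≤ ((n : ℝ) + 1) / 2 → 0 ≤ cocG μ N t ∧ cocG μ N t ≤ 4 := by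
    intro t t0 t1
    refine ⟨(by norm_num : (0 : ℝ) ≤ 1 / 4).trans (cocG_ge μ N t), ?_⟩
    rw [hval t t0 t1]
    have h2 := sin_sq_add_cos_sq (2 * π * t)
    have hN := den_pos a (sin (2 * π * t) ^ 2) ha1 (sq_nonneg _)
    have h3 : 0 ≤ (a ^ 2 - 1) * sin (2 * π * t) ^ 2 := mul_nonneg (by nlinarith) (sq_nonneg _)
    generalize sin (2 * π * t) = s at *
    generalize cos (2 * π * t) = c at *
    have h4 : (1 : ℝ) / 4 ≤ 1 + s ^ 2 - 2 * (ε * s * c) := by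
      have h5 : (ε * s * c) ^ 2 = s ^ 2 * (1 - s ^ 2) := by
        rw [mul_pow, mul_pow, hε]
        linear_combination s ^ 2 * h2
      have h6 : (2 * (ε * s * c)) ^ 2 ≤ (3 / 4 + s ^ 2) ^ 2 := by
        nlinarith [sq_nonneg (s ^ 2 - 1 / 4)]
      have := (abs_le_of_sq_le_sq' h6 (by positivity)).2
      linarith
    rw [div_le_iff₀ (by linarith)]
    linarith
  have hsup : |cocG μ N u - cocG μ N v| ≤ 4 := by
    have b1 := hb u h0 (huv.trans h1)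
    have b2 := hb v (h0.trans huv) h1
    rw [abs_le]
    constructor <;> linarith [b1.1, b1.2, b2.1, b2.2]
  have h6 : |cocG μ N u - cocG μ N v| ≤ 640 * π * min 1 d := by
    rcases le_total 1 d with h | h
    · rw [min_eq_left h, mul_one]
      nlinarith [pi_gt_three]
    · rw [min_eq_right h]; exact hlip
  calc _ ≤ 640 * π * min 1 d := h6
    _ ≤ 640 * π * d ^ β := by
      have := min_le_rpow β d hβ0 hβ1 hd0
      gcongr

theorem hol_unif (β : ℝ) (hβ0 : 0 ≤ β) (hβ1 : β ≤ 1) (μ : ℕ)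
    (hμ : 2 ≤ (1 - β) * ((μ : ℝ) + 1)) : ∃ H : ℝ, 0 ≤ H ∧
    (∀ N x y, |DN μ N x - DN μ N y| ≤ H * |x - y| ^ β) ∧
      ∀ N x y, |EN μ N x - EN μ N y| ≤ H * |x - y| ^ β := by
  have hπ := pi_pos
  have hμ0 : (0 : ℝ) ≤ μ := μ.cast_nonneg
  have hnn : ∀ x y : ℝ, 0 ≤ |x - y| ^ β := fun x y => rpow_nonneg (abs_nonneg _) _
  refine ⟨2 * (1024 * π * (1020 * ((μ : ℝ) + 1))) + 2 * (640 * π), by positivity,
    fun N x y => ?_, fun N x y => ?_⟩
  · have h := glue (eN μ N) (cocF μ N) (1024 * π * (1020 * ((μ : ℝ) + 1))) β hβ0 (by positivity)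
      (cocF_half μ N) (holF_interval β hβ0 hβ1 μ hμ N) ((eN μ N).symm x) ((eN μ N).symm y)
    rw [OrderIso.apply_symm_apply, OrderIso.apply_symm_apply] at h
    refine h.trans ?_
    rw [add_mul]
    have := mul_nonneg (by positivity : 0 ≤ 2 * (640 * π)) (hnn x y)
    linarith
  · have h := glue (eN μ N) (cocG μ N) (640 * π) β hβ0 (by positivity)
      (cocG_half μ N) (holG_interval β hβ0 hβ1 μ N) ((eN μ N).symm x) ((eN μ N).symm y)
    rw [OrderIso.apply_symm_apply, OrderIso.apply_symm_apply] at h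
    refine h.trans ?_
    rw [add_mul]
    have := mul_nonneg (by positivity : 0 ≤ 2 * (1024 * π * (1020 * ((μ : ℝ) + 1)))) (hnn x y)
    linarith

end CommCA
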