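import Pool.Agent.Helper72.CommCA.Space
import Pool.Agent.Helper72.CommCA.HolU

open Set Filter Topology

namespace CommCA

open CommC1 (Circ IsDiffeo Diff1 CommPairs IsLift Good exists_good abs_obstruction good_commute)

/-- The topological part of the construction: a set of commuting pairs near `q₀` which contains
`q₀` and a pair close to `q₀` whose first map moves `x₀` beyond `y` is not connected. -/
theorem obstruction_set {F₀ D₀ G₀ E₀ : ℝ → ℝ}
    (hF₀ : IsLift F₀ D₀) (hG₀ : IsLift G₀ E₀)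
    (q₀ : CommPairs) (a1 : ∀ x : ℝ, q₀.1.1.1.1 (x : Circ) = (F₀ x : Circ))
    (a2 : ∀ x : ℝ, q₀.1.1.1.2 (x : Circ) = D₀ x)
    (a3 : ∀ x : ℝ, q₀.1.2.1.1 (x : Circ) = (G₀ x : Circ))
    (a4 : ∀ x : ℝ, q₀.1.2.1.2 (x : Circ) = E₀ x)
    {x₀ y : ℝ} (hx : x₀ < G₀ x₀) (hy : G₀ y < y) (h0 : ∀ j, F₀^[j] x₀ < y) :
    ∃ U ∈ 𝓝 q₀, ∀ V ⊆ U, q₀ ∈ V → ∀ (qn : CommPairs) (F D : ℝ → ℝ), IsLift F D →
      (∀ x : ℝ, qn.1.1.1.1 (x : Circ) = (F x : Circ)) → (∀ x : ℝ, qn.1.1.1.2 (x : Circ) = D x) →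
      (∀ x, dist (F₀ x) (F x) < 1 / 4) → (∃ j, y < F^[j] x₀) → qn ∈ V → ¬ IsPreconnected V := by
  -- the neighbourhood
  set ε := min (1 / 4) (min (G₀ x₀ - x₀) (y - G₀ y)) with hε
  have hεpos : 0 < ε := by
    refine lt_min (by norm_num) (lt_min (by linarith) (by linarith))
  have hε1 : ε ≤ 1 / 4 := min_le_left _ _
  have hε2 : ε ≤ G₀ x₀ - x₀ := (min_le_right _ _).trans (min_le_left _ _)
  have hε3 : ε ≤ y - G₀ y := (min_le_right _ _).trans (min_le_right _ _)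
  let U : Set CommPairs := {p | dist p.1.1.1.1 q₀.1.1.1.1 < ε ∧ dist p.1.2.1.1 q₀.1.2.1.1 < ε}
  have cf : Continuous fun p : CommPairs => p.1.1 := continuous_fst.comp continuous_subtype_val
  have cg : Continuous fun p : CommPairs => p.1.2 := continuous_snd.comp continuous_subtype_val
  have cd : Continuous fun d : Diff1 => d.1.1 := continuous_fst.comp continuous_subtype_val
  have hU : U ∈ 𝓝 q₀ := by
    have o1 : IsOpen {p : CommPairs | dist p.1.1.1.1 q₀.1.1.1.1 < ε} :=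
      isOpen_lt ((cd.comp cf).dist continuous_const) continuous_const
    have o2 : IsOpen {p : CommPairs | dist p.1.2.1.1 q₀.1.2.1.1 < ε} :=
      isOpen_lt ((cd.comp cg).dist continuous_const) continuous_const
    exact (o1.inter o2).mem_nhds ⟨by simpa using hεpos, by simpa using hεpos⟩
  -- good lifts
  have gF : ∀ p : CommPairs, p ∈ U → ∃ f, Good F₀ p.1.1 f := fun p hp =>
    exists_good hF₀.continuous q₀.1.1.1.1 (fun x => (a1 x).symm) p.1.1 (lt_of_lt_of_le hp.1 hε1)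
  have gG : ∀ p : CommPairs, p ∈ U → ∃ f, Good G₀ p.1.2 f := fun p hp =>
    exists_good hG₀.continuous q₀.1.2.1.1 (fun x => (a3 x).symm) p.1.2 (lt_of_lt_of_le hp.2 hε1)
  have gF' : ∀ p : CommPairs, ∃ f, p ∈ U → Good F₀ p.1.1 f := fun p => by
    by_cases hp : p ∈ U
    · obtain ⟨f, hf⟩ := gF p hp; exact ⟨f, fun _ => hf⟩
    · exact ⟨id, fun h => absurd h hp⟩
  have gG' : ∀ p : CommPairs, ∃ f, p ∈ U → Good G₀ p.1.2 f := fun p => by
    by_cases hp : p ∈ U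
    · obtain ⟨f, hf⟩ := gG p hp; exact ⟨f, fun _ => hf⟩
    · exact ⟨id, fun h => absurd h hp⟩
  choose Φ hΦ using gF'
  choose Γ hΓ using gG'
  have good0F : Good F₀ q₀.1.1 F₀ := ⟨hF₀.deg, fun x => by rw [a2]; exact hF₀.der x,
    fun x => (a1 x).symm, fun x => by simp⟩
  have good0G : Good G₀ q₀.1.2 G₀ := ⟨hG₀.deg, fun x => by rw [a4]; exact hG₀.der x,
    fun x => (a3 x).symm, fun x => by simp⟩
  refine ⟨U, hU, fun V hVU h0V qn F D hF b1 b2 hnF h1 hnV => ?_⟩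
  have goodn : Good F₀ qn.1.1 F := ⟨hF.deg, fun x => by rw [b2]; exact hF.der x,
    fun x => (b1 x).symm, fun x => by
      have := hnF x
      rwa [dist_comm, Real.dist_eq] at this⟩
  have eq_of_good : ∀ {K f f' : ℝ → ℝ} {d : Diff1}, Good K d f → Good K d f' → f = f' := by
    intro K f f' d h h'
    funext x
    have := h.abs_sub_le h' x
    rw [dist_self] at this
    have := abs_nonpos_iff.mp this
    linarith
  have e0 : Φ q₀ = F₀ := eq_of_good (hΦ q₀ (hVU h0V)) good0F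
  have en : Φ qn = F := eq_of_good (hΦ qn (hVU hnV)) goodn
  have hGx : ∀ p ∈ V, x₀ < Γ p x₀ := fun p hp => by
    have h2 := (hΓ p (hVU hp)).abs_sub_le good0G x₀
    have h3 := (hVU hp).2
    have h4 := neg_abs_le (Γ p x₀ - G₀ x₀)
    linarith
  have hGy : ∀ p ∈ V, Γ p y < y := fun p hp => by
    have h2 := (hΓ p (hVU hp)).abs_sub_le good0G y
    have h3 := (hVU hp).2
    have h4 := le_abs_self (Γ p y - G₀ y)
    linarith
  refine abs_obstruction V Φ Γ x₀ y (fun j => ?_) (fun p hp => (hΦ p (hVU hp)).strictMono.monotone)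
    (fun p hp x => ?_) hGx hGy h0V hnV (by rw [e0]; exact h0) (by rw [en]; exact h1)
  · exact Good.iterate_tendsto V (fun p : CommPairs => p.1.1) cf.continuousOn Φ
      (fun p hp => hΦ p (hVU hp)) x₀ j
  · have hf := hΦ p (hVU hp)
    have hg := hΓ p (hVU hp)
    refine good_commute hf.continuous hg.continuous hg.strictMono hg.1 (fun z => ?_)
      (hGx p hp) (hGy p hp) x
    rw [hf.2.2.1, hg.2.2.1, hg.2.2.1, hf.2.2.1]
    exact p.2 _



/-- Forget the Hoelder quotients. -/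
def toC1 {r : ℝ} (q : CommPairsR r) : CommPairs :=
  ⟨(⟨q.1.1.1.1, q.1.1.2.1⟩, ⟨q.1.2.1.1, q.1.2.2.1⟩), q.2⟩

theorem continuous_toC1 {r : ℝ} : Continuous (toC1 : CommPairsR r → CommPairs) := by
  refine Continuous.subtype_mk (Continuous.prodMk (Continuous.subtype_mk ?_ _)
    (Continuous.subtype_mk ?_ _)) _
  · exact continuous_fst.comp (continuous_subtype_val.comp
      (continuous_fst.comp continuous_subtype_val))
  · exact continuous_fst.comp (continuous_subtype_val.comp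
      (continuous_snd.comp continuous_subtype_val))

theorem main (r : ℝ) (hr1 : 1 ≤ r) (hr2 : r < 2) :
    ∃ q : CommPairsR r, ∃ U ∈ 𝓝 q, ∀ V ∈ 𝓝 q, V ⊆ U → ¬ IsPreconnected V := by
  -- an exponent between `r - 1` and `1`
  set β : ℝ := r / 2 with hβ
  have hβ0 : 0 ≤ β := by rw [hβ]; linarith
  have hβ1 : β < 1 := by rw [hβ]; linarith
  have hrβ : r - 1 < β := by rw [hβ]; linarith
  obtain ⟨μ, hμ⟩ : ∃ μ : ℕ, 2 ≤ (1 - β) * ((μ : ℝ) + 1) := by
    obtain ⟨μ, hμ⟩ := exists_nat_ge (2 / (1 - β))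
    refine ⟨μ, ?_⟩
    have h1 : 0 < 1 - β := by linarith
    rw [div_le_iff₀ h1] at hμ
    nlinarith
  obtain ⟨H, hH0, hHF, hHG⟩ := hol_unif β hβ0 hβ1.le μ hμ
  obtain ⟨s, F₀, D₀, G₀, E₀, hF₀, hG₀, hF, hG, hc₀, hc, tF, tD, tG, tE, x₀, y, hx, hy, h0, h1⟩ :=
    exists_data μ
  have hHF' : ∀ n x y, |DN μ (s + n) x - DN μ (s + n) y| ≤ H * |x - y| ^ β := fun n => hHF _
  have hHG' : ∀ n x y, |EN μ (s + n) x - EN μ (s + n) y| ≤ H * |x - y| ^ β := fun n => hHG _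
  obtain ⟨p₀, a1, a2⟩ := exists_diffR hr1 hrβ.le hF₀ hH0 (hol_conv hr1 hrβ hH0 hHF' tD).1
  obtain ⟨g₀, a3, a4⟩ := exists_diffR hr1 hrβ.le hG₀ hH0 (hol_conv hr1 hrβ hH0 hHG' tE).1
  choose p b1 b2 using fun n => exists_diffR hr1 hrβ.le (hF n) hH0 (hHF' n)
  choose g b3 b4 using fun n => exists_diffR hr1 hrβ.le (hG n) hH0 (hHG' n)
  have comm_of : ∀ {F G : ℝ → ℝ} {p g : DiffR r}, (∀ x : ℝ, p.1.1.1 (x : Circ) = (F x : Circ)) →
      (∀ x : ℝ, g.1.1.1 (x : Circ) = (G x : Circ)) → (∀ x, F (G x) = G (F x)) →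
      ∀ x : Circ, map p (map g x) = map g (map p x) := by
    intro F G p g hp hg hFG x
    induction x using QuotientAddGroup.induction_on with
    | H z =>
      show p.1.1.1 (g.1.1.1 (z : Circ)) = g.1.1.1 (p.1.1.1 (z : Circ))
      rw [hg, hp, hp, hg, hFG]
  let q₀ : CommPairsR r := ⟨(p₀, g₀), comm_of a1 a3 hc₀⟩
  let q : ℕ → CommPairsR r := fun n => ⟨(p n, g n), comm_of (b1 n) (b3 n) (hc n)⟩
  have hq : Tendsto q atTop (𝓝 q₀) := by
    rw [tendsto_subtype_rng]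
    exact Tendsto.prodMk_nhds (tendsto_diffR hr1 hrβ hH0 b1 b2 a1 a2 tF tD hHF')
      (tendsto_diffR hr1 hrβ hH0 b3 b4 a3 a4 tG tE hHG')
  obtain ⟨U, hU, hobs⟩ := obstruction_set hF₀ hG₀ (toC1 q₀) a1 a2 a3 a4 hx hy h0
  refine ⟨q₀, toC1 ⁻¹' U, continuous_toC1.continuousAt hU, fun V hV hVU hVc => ?_⟩
  have hevF : ∀ᶠ n in atTop, ∀ x, dist (F₀ x) (FN μ (s + n) x) < 1 / 4 :=
    (Metric.tendstoUniformly_iff.mp tF) (1 / 4) (by norm_num)
  obtain ⟨n, hnV, hnF⟩ := ((hq.eventually hV).and hevF).exists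
  exact hobs (toC1 '' V) (image_subset_iff.mpr hVU) ⟨q₀, mem_of_mem_nhds hV, rfl⟩ (toC1 (q n))
    _ _ (hF n) (b1 n) (b2 n) hnF (h1 n) ⟨q n, hnV, rfl⟩
    (hVc.image _ continuous_toC1.continuousOn)

end CommCA
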