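import Pool.Agent.Helper72.CommCA.Par

/-!
# Growth of the amplitudes and elementary inequalities for powers
-/

open Set Filter Topology Real

namespace CommCA

theorem rpow_step (β : ℝ) (hβ0 : 0 ≤ β) (hβ1 : β ≤ 1) (μ k : ℕ)
    (hμ : 2 ≤ (1 - β) * ((μ : ℝ) + 1)) :
    (1 + 1 / ((Q μ k : ℝ) - 1)) ^ β ≤ (1 + 1 / ((k : ℝ) + 2)) ^ (1 - β) := by
  have hk : (0 : ℝ) ≤ k := k.cast_nonneg
  have hQ := Q_ge' μ k
  have hQe : (Q μ k : ℝ) = ((μ : ℝ) + 1) * ((k : ℝ) + 2) := by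
    unfold Q; push_cast; ring
  have h1 : (1 + 1 / ((Q μ k : ℝ) - 1)) ^ β ≤ exp (β / ((Q μ k : ℝ) - 1)) := by
    have h2 : 1 + 1 / ((Q μ k : ℝ) - 1) ≤ exp (1 / ((Q μ k : ℝ) - 1)) := by
      have := add_one_le_exp (1 / ((Q μ k : ℝ) - 1))
      linarith
    have h3 : 0 ≤ 1 + 1 / ((Q μ k : ℝ) - 1) := by
      have : 0 ≤ 1 / ((Q μ k : ℝ) - 1) := div_nonneg zero_le_one (by linarith)
      linarith
    calc (1 + 1 / ((Q μ k : ℝ) - 1)) ^ β ≤ (exp (1 / ((Q μ k : ℝ) - 1))) ^ β :=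
          rpow_le_rpow h3 h2 hβ0
      _ = exp (β / ((Q μ k : ℝ) - 1)) := by
          rw [← exp_mul]; congr 1; ring
  have h4 : exp ((1 - β) / ((k : ℝ) + 3)) ≤ (1 + 1 / ((k : ℝ) + 2)) ^ (1 - β) := by
    have h5 : exp (1 / ((k : ℝ) + 3)) ≤ 1 + 1 / ((k : ℝ) + 2) := by
      have h6 : 1 - 1 / ((k : ℝ) + 3) ≤ exp (-(1 / ((k : ℝ) + 3))) := by
        have := add_one_le_exp (-(1 / ((k : ℝ) + 3)))
        linarith
      have h7 : 1 - 1 / ((k : ℝ) + 3) = (1 + 1 / ((k : ℝ) + 2))⁻¹ := by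
        field_simp
        ring
      rw [h7, exp_neg] at h6
      exact (inv_le_inv₀ (by positivity) (exp_pos _)).mp h6
    calc exp ((1 - β) / ((k : ℝ) + 3)) = (exp (1 / ((k : ℝ) + 3))) ^ (1 - β) := by
          rw [← exp_mul]; congr 1; ring
      _ ≤ _ := rpow_le_rpow (exp_pos _).le h5 (by linarith)
  refine h1.trans (le_trans ?_ h4)
  rw [exp_le_exp, div_le_div_iff₀ (by linarith) (by linarith), hQe]
  have h8 := mul_le_mul_of_nonneg_right hμ (by linarith : (0 : ℝ) ≤ (k : ℝ) + 2)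
  have h9 : β * ((k : ℝ) + 3) ≤ (k : ℝ) + 3 := by nlinarith
  nlinarith

theorem A_rpow_le (β : ℝ) (hβ0 : 0 ≤ β) (hβ1 : β ≤ 1) (μ : ℕ)
    (hμ : 2 ≤ (1 - β) * ((μ : ℝ) + 1)) (k : ℕ) :
    A μ k ^ β ≤ ((μ : ℝ) + 1) * ((k : ℝ) + 2) := by
  induction k with
  | zero =>
    have h1 : A μ 0 = (μ : ℝ) + 1 := by
      unfold A Q
      simp only [th]
      push_cast
      ring
    have h2 : (0 : ℝ) ≤ μ := μ.cast_nonneg
    calc A μ 0 ^ β ≤ A μ 0 ^ (1 : ℝ) := rpow_le_rpow_of_exponent_le (one_le_A μ 0) hβ1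
      _ = (μ : ℝ) + 1 := by rw [rpow_one, h1]
      _ ≤ _ := by push_cast; nlinarith
  | succ k ih =>
    have hk : (0 : ℝ) ≤ k := k.cast_nonneg
    have hQ := Q_ge' μ k
    have hA := A_pos μ k
    have h1 : 0 ≤ 1 + 1 / ((Q μ k : ℝ) - 1) := by
      have : 0 ≤ 1 / ((Q μ k : ℝ) - 1) := div_nonneg zero_le_one (by linarith)
      linarith
    have h2 : 0 < 1 + 1 / ((k : ℝ) + 2) := by positivity
    have h3 := rpow_step β hβ0 hβ1 μ k hμ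
    rw [A_succ, inv_fac, mul_rpow (by positivity) h1, mul_rpow hA.le h2.le]
    calc A μ k ^ β * (1 + 1 / ((k : ℝ) + 2)) ^ β * (1 + 1 / ((Q μ k : ℝ) - 1)) ^ β
        ≤ A μ k ^ β * (1 + 1 / ((k : ℝ) + 2)) ^ β * (1 + 1 / ((k : ℝ) + 2)) ^ (1 - β) := by
          gcongr
      _ = A μ k ^ β * (1 + 1 / ((k : ℝ) + 2)) := by
          rw [mul_assoc, ← rpow_add h2]
          simp
      _ ≤ ((μ : ℝ) + 1) * ((k : ℝ) + 2) * (1 + 1 / ((k : ℝ) + 2)) := by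
          gcongr
      _ = ((μ : ℝ) + 1) * (((k + 1 : ℕ) : ℝ) + 2) := by
          push_cast
          field_simp
          ring

theorem min_le_rpow (β t : ℝ) (hβ0 : 0 ≤ β) (hβ1 : β ≤ 1) (ht : 0 ≤ t) : min 1 t ≤ t ^ β := by
  rcases le_total 1 t with h | h
  · rw [min_eq_left h]
    exact one_le_rpow h hβ0
  · rw [min_eq_right h]
    rcases eq_or_lt_of_le ht with h0 | h0
    · rw [← h0]
      exact rpow_nonneg le_rfl _
    · calc t = t ^ (1 : ℝ) := (rpow_one t).symm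
        _ ≤ t ^ β := rpow_le_rpow_of_exponent_ge h0 h hβ1

theorem pow8_le (t : ℝ) (h0 : 0 ≤ t) (h1 : t ≤ 1) : (1 + t) ^ 8 - 1 ≤ 255 * t := by
  have h2 : t ^ 2 ≤ t := by nlinarith
  have h3 : t ^ 3 ≤ t := by nlinarith [pow_nonneg h0 2]
  have h4 : t ^ 4 ≤ t := by nlinarith [pow_nonneg h0 3]
  have h5 : t ^ 5 ≤ t := by nlinarith [pow_nonneg h0 4]
  have h6 : t ^ 6 ≤ t := by nlinarith [pow_nonneg h0 5]
  have h7 : t ^ 7 ≤ t := by nlinarith [pow_nonneg h0 6]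
  have h8 : t ^ 8 ≤ t := by nlinarith [pow_nonneg h0 7]
  have : (1 + t) ^ 8 - 1 = 8 * t + 28 * t ^ 2 + 56 * t ^ 3 + 70 * t ^ 4 + 56 * t ^ 5 +
      28 * t ^ 6 + 8 * t ^ 7 + t ^ 8 := by ring
  rw [this]
  linarith

end CommCA
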