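import Pool.Agent.Helper72.CommCA.Data
import Pool.Agent.Helper72.CommCA.Pow

/-!
# Hoelder estimates for the derivatives, uniform in the level
-/

open Set Filter Topology Real

namespace CommCA

open CommC1 (ghat gam gam_pos den_pos cocF_far_aux abs_gam_sub_one_le)

theorem mv_le {e f e' f' : ℝ → ℝ} {a b K : ℝ} (hab : a ≤ b) (he : ∀ t, HasDerivAt e (e' t) t)
    (hf : ∀ t, HasDerivAt f (f' t) t) (h : ∀ t ∈ Ioo a b, |f' t| ≤ K * e' t) :
    |f a - f b| ≤ K * (e b - e a) := by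
  have hec : Continuous e := continuous_iff_continuousAt.2 fun t => (he t).continuousAt
  have hfc : Continuous f := continuous_iff_continuousAt.2 fun t => (hf t).continuousAt
  have key : ∀ σ : ℝ, |σ| = 1 → σ * (f b - f a) ≤ K * (e b - e a) := by
    intro σ hσ
    have hd : ∀ t, HasDerivAt (fun t => K * e t - σ * f t) (K * e' t - σ * f' t) t := fun t =>
      ((he t).const_mul K).sub ((hf t).const_mul σ)
    have hm : MonotoneOn (fun t => K * e t - σ * f t) (Icc a b) := by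
      refine monotoneOn_of_deriv_nonneg (convex_Icc a b)
        ((continuous_const.mul hec).sub (continuous_const.mul hfc)).continuousOn
        (fun t _ => (hd t).differentiableAt.differentiableWithinAt) fun t ht => ?_
      rw [interior_Icc] at ht
      rw [(hd t).deriv]
      have h1 := h t ht
      have h2 : σ * f' t ≤ |f' t| := by
        calc σ * f' t ≤ |σ * f' t| := le_abs_self _
          _ = |f' t| := by rw [abs_mul, hσ, one_mul]
      linarith
    have := hm (left_mem_Icc.2 hab) (right_mem_Icc.2 hab) hab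
    simp only at this
    nlinarith
  rw [abs_le]
  have h1 := key 1 (by norm_num)
  have h2 := key (-1) (by norm_num)
  constructor <;> linarith

theorem glue (e : ℝ ≃o ℝ) (c : ℝ → ℝ) (H β : ℝ) (hβ : 0 ≤ β) (hH : 0 ≤ H)
    (h1 : ∀ n : ℤ, c ((n : ℝ) / 2) = 1)
    (h : ∀ n : ℤ, ∀ u v : ℝ, (n : ℝ) / 2 ≤ u → u ≤ v → v ≤ ((n : ℝ) + 1) / 2 →
      |c u - c v| ≤ H * (e v - e u) ^ β) (u v : ℝ) :
    |c u - c v| ≤ 2 * H * |e u - e v| ^ β := by
  have main : ∀ u v : ℝ, u ≤ v → |c u - c v| ≤ 2 * H * (e v - e u) ^ β := by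
    intro u v huv
    have hmono : 0 ≤ e v - e u := sub_nonneg.2 (e.monotone huv)
    have hp : 0 ≤ (e v - e u) ^ β := rpow_nonneg hmono _
    have hu1 : ((⌊2 * u⌋ : ℤ) : ℝ) / 2 ≤ u := by
      have := Int.floor_le (2 * u); linarith
    have hu2 : u ≤ (((⌊2 * u⌋ : ℤ) : ℝ) + 1) / 2 := by
      have := Int.lt_floor_add_one (2 * u); linarith
    have hv1 : ((⌊2 * v⌋ : ℤ) : ℝ) / 2 ≤ v := by
      have := Int.floor_le (2 * v); linarith
    have hv2 : v ≤ (((⌊2 * v⌋ : ℤ) : ℝ) + 1) / 2 := by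
      have := Int.lt_floor_add_one (2 * v); linarith
    rcases lt_or_ge ⌊2 * u⌋ ⌊2 * v⌋ with hlt | hge
    · have hle : ((⌊2 * u⌋ : ℤ) : ℝ) + 1 ≤ ((⌊2 * v⌋ : ℤ) : ℝ) := by exact_mod_cast hlt
      set p := (((⌊2 * u⌋ : ℤ) : ℝ) + 1) / 2 with hp'
      set q := ((⌊2 * v⌋ : ℤ) : ℝ) / 2 with hq'
      have hpq : p ≤ q := by linarith
      have e1 := h ⌊2 * u⌋ u p hu1 hu2 le_rfl
      have e2 := h ⌊2 * v⌋ q v le_rfl hv1 hv2
      have cp : c p = 1 := by
        have := h1 (⌊2 * u⌋ + 1)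
        push_cast at this
        exact this
      have cq : c q = 1 := h1 _
      have m1 : e p ≤ e v := e.monotone (hpq.trans hv1)
      have m2 : e u ≤ e q := e.monotone (hu2.trans hpq)
      have m3 : e u ≤ e p := e.monotone hu2
      have m4 : e q ≤ e v := e.monotone hv1
      have r1 : (e p - e u) ^ β ≤ (e v - e u) ^ β :=
        rpow_le_rpow (by linarith) (by linarith) hβ
      have r2 : (e v - e q) ^ β ≤ (e v - e u) ^ β :=
        rpow_le_rpow (by linarith) (by linarith) hβ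
      have r3 := mul_le_mul_of_nonneg_left r1 hH
      have r4 := mul_le_mul_of_nonneg_left r2 hH
      rw [cp] at e1
      rw [cq] at e2
      have := abs_sub_le (c u) 1 (c v)
      linarith
    · have heq : ⌊2 * u⌋ = ⌊2 * v⌋ := le_antisymm (Int.floor_mono (by linarith)) hge
      have e1 := h ⌊2 * u⌋ u v hu1 huv (by rw [heq]; exact hv2)
      have := mul_nonneg hH hp
      linarith
  rcases le_total u v with huv | huv
  · have h2 := main u v huv
    rwa [abs_sub_comm (e u), abs_of_nonneg (sub_nonneg.2 (e.monotone huv))]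
  · have h2 := main v u huv
    rw [abs_sub_comm (c u)]
    rwa [abs_of_nonneg (sub_nonneg.2 (e.monotone huv))]

theorem sin_half (n : ℤ) : sin (2 * π * ((n : ℝ) / 2)) = 0 := by
  rw [show 2 * π * ((n : ℝ) / 2) = n * π by ring]
  exact sin_int_mul_pi n

theorem floor_or (n : ℤ) (u : ℝ) (h0 : (n : ℝ) / 2 ≤ u) (h1 : u ≤ ((n : ℝ) + 1) / 2) :
    ⌊2 * u⌋ = n ∨ sin (2 * π * u) = 0 := by
  rcases eq_or_lt_of_le h1 with h | h
  · right
    have := sin_half (n + 1)
    push_cast at this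
    rw [h]
    exact this
  · left
    rw [Int.floor_eq_iff]
    constructor <;> linarith

theorem dens_on (μ N : ℕ) (n : ℤ) (u : ℝ) (h0 : (n : ℝ) / 2 ≤ u) (h1 : u ≤ ((n : ℝ) + 1) / 2) :
    dens μ N u = (1 / 2) / (1 + (A μ (ix μ N n) ^ 2 - 1) * sin (2 * π * u) ^ 2) := by
  unfold dens
  rcases floor_or n u h0 h1 with h | h
  · unfold amp
    rw [h]
  · rw [h]
    simp

theorem cocF_on (μ N : ℕ) (n : ℤ) (u : ℝ) (h0 : (n : ℝ) / 2 ≤ u) (h1 : u ≤ ((n : ℝ) + 1) / 2) :
    cocF μ N u = (1 + (A μ (ix μ N n) ^ 2 - 1) * sin (2 * π * u) ^ 2) /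
      (1 + (A μ (ix μ N (n + 2)) ^ 2 - 1) * sin (2 * π * u) ^ 2) := by
  rw [cocF_eq]
  rcases floor_or n u h0 h1 with h | h
  · rw [amp_add_one]
    unfold amp
    rw [h]
  · rw [h]
    simp

theorem cocG_on (μ N : ℕ) (n : ℤ) (u : ℝ) (h0 : (n : ℝ) / 2 ≤ u) (h1 : u ≤ ((n : ℝ) + 1) / 2) :
    cocG μ N u = (1 + (A μ (ix μ N n) ^ 2 - 1) * sin (2 * π * u) ^ 2) /
      (gam u + (A μ (ix μ N n) ^ 2 - 1) * sin (2 * π * u) ^ 2) := by
  rw [cocG_eq]
  rcases floor_or n u h0 h1 with h | h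
  · unfold amp
    rw [h]
  · rw [h]
    simp

theorem cocF_half (μ N : ℕ) (n : ℤ) : cocF μ N ((n : ℝ) / 2) = 1 := by
  rw [cocF_on μ N n _ le_rfl (by linarith), sin_half]
  simp

theorem cocG_half (μ N : ℕ) (n : ℤ) : cocG μ N ((n : ℝ) / 2) = 1 := by
  rw [cocG_on μ N n _ le_rfl (by linarith), sin_half]
  unfold gam
  rw [sin_half]
  simp

/-- The sign of the sine on a half integer interval. -/
theorem sin_sign (n : ℤ) : ∃ ε : ℝ, ε ^ 2 = 1 ∧ ∀ u : ℝ, (n : ℝ) / 2 ≤ u → u ≤ ((n : ℝ) + 1) / 2 →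
    |sin (2 * π * u)| = ε * sin (2 * π * u) := by
  have hπ := pi_pos
  rcases Int.even_or_odd' n with ⟨j, hj | hj⟩
  · refine ⟨1, by norm_num, fun u h0 h1 => ?_⟩
    rw [hj] at h0 h1
    push_cast at h0 h1
    have h2 : sin (2 * π * u) = sin (2 * π * u - j * (2 * π)) := (sin_sub_int_mul_two_pi _ _).symm
    have h3 : 0 ≤ sin (2 * π * u) := by
      rw [h2]
      apply sin_nonneg_of_nonneg_of_le_pi
      · nlinarith
      · nlinarith
    rw [abs_of_nonneg h3, one_mul]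
  · refine ⟨-1, by norm_num, fun u h0 h1 => ?_⟩
    rw [hj] at h0 h1
    push_cast at h0 h1
    have h2 : sin (2 * π * u) = sin (2 * π * u - (j + 1 : ℤ) * (2 * π)) :=
      (sin_sub_int_mul_two_pi _ _).symm
    have h3 : sin (2 * π * u) ≤ 0 := by
      rw [h2]
      apply sin_nonpos_of_nonpos_of_neg_pi_le
      · push_cast
        nlinarith
      · push_cast
        nlinarith
    rw [abs_of_nonpos h3]
    ring

end CommCA
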