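import Pool.Agent.Helper72.CommCA.Hol

/-!
# Hoelder estimates for the derivatives, uniform in the level: the two cocycles
-/

open Set Filter Topology Real

namespace CommCA

open CommC1 (ghat gam gam_pos den_pos cocF_far_aux abs_gam_sub_one_le)

private theorem der_sc (u : ℝ) :
    HasDerivAt (fun u : ℝ => sin (2 * π * u)) (cos (2 * π * u) * (2 * π)) u ∧
    HasDerivAt (fun u : ℝ => cos (2 * π * u)) (-sin (2 * π * u) * (2 * π)) u ∧
    HasDerivAt (fun u : ℝ => sin (2 * π * u) ^ 2)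
      (2 * sin (2 * π * u) * (cos (2 * π * u) * (2 * π))) u := by
  have hl : HasDerivAt (fun u : ℝ => 2 * π * u) (2 * π) u := by
    simpa using (hasDerivAt_id u).const_mul (2 * π)
  refine ⟨hl.sin, hl.cos, ?_⟩
  have := hl.sin.pow 2
  refine this.congr_deriv ?_
  simp

/-- Two amplitudes `a` (here) and `b` (next): Lipschitz and sup bounds of the cocycle. -/
theorem fF_bound (a b : ℝ) (ha : 1 ≤ a) (hb : 1 ≤ b) (hab : a ^ 2 ≤ 256 * b ^ 2) :
    ∃ f' : ℝ → ℝ, (∀ t, HasDerivAt (fun u : ℝ => (1 + (a ^ 2 - 1) * sin (2 * π * u) ^ 2) /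
      (1 + (b ^ 2 - 1) * sin (2 * π * u) ^ 2)) (f' t) t) ∧
      ∀ t, |f' t| ≤ 1024 * π * |a ^ 2 - b ^ 2| / b *
        ((1 / 2) / (1 + (a ^ 2 - 1) * sin (2 * π * t) ^ 2)) := by
  refine ⟨fun t => 2 * sin (2 * π * t) * (cos (2 * π * t) * (2 * π)) * (a ^ 2 - b ^ 2) /
    (1 + (b ^ 2 - 1) * sin (2 * π * t) ^ 2) ^ 2, fun t => ?_, fun t => ?_⟩
  · obtain ⟨-, -, hs⟩ := der_sc t
    have hD := den_pos b (sin (2 * π * t) ^ 2) hb (sq_nonneg _)
    have h1 := ((hs.const_mul (a ^ 2 - 1)).const_add 1).div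
      ((hs.const_mul (b ^ 2 - 1)).const_add 1) hD.ne'
    refine h1.congr_deriv ?_
    congr 1
    ring
  · beta_reduce
    have hπ := pi_pos
    have h1 := sin_sq_add_cos_sq (2 * π * t)
    have hN := den_pos a (sin (2 * π * t) ^ 2) ha (sq_nonneg _)
    have hD := den_pos b (sin (2 * π * t) ^ 2) hb (sq_nonneg _)
    generalize sin (2 * π * t) = s at *
    generalize cos (2 * π * t) = c at *
    have hb0 : 0 < b := by linarith
    have hsc : 2 * b * |s * c| ≤ 1 + (b ^ 2 - 1) * s ^ 2 := by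
      rw [abs_mul]
      have h2 : 1 + (b ^ 2 - 1) * s ^ 2 = c ^ 2 + b ^ 2 * s ^ 2 := by
        linear_combination (-1 : ℝ) * h1
      rw [h2]
      nlinarith [sq_nonneg (|c| - b * |s|), sq_abs s, sq_abs c]
    have hND : 1 + (a ^ 2 - 1) * s ^ 2 ≤ 256 * (1 + (b ^ 2 - 1) * s ^ 2) := by
      have h3 := mul_le_mul_of_nonneg_right hab (sq_nonneg s)
      have h4 : s ^ 2 ≤ 1 := by nlinarith [sq_nonneg c]
      nlinarith
    set Nn := 1 + (a ^ 2 - 1) * s ^ 2 with hNn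
    set Dd := 1 + (b ^ 2 - 1) * s ^ 2 with hDd
    have e1 : 2 * s * (c * (2 * π)) * (a ^ 2 - b ^ 2) / Dd ^ 2 =
        4 * π * ((s * c) * (a ^ 2 - b ^ 2)) / Dd ^ 2 := by ring
    rw [e1, abs_div, abs_mul (4 * π), abs_mul (s * c), abs_of_pos (by positivity : 0 < 4 * π),
      abs_of_pos (by positivity : 0 < Dd ^ 2)]
    set X := |a ^ 2 - b ^ 2| with hX
    have hX0 : 0 ≤ X := abs_nonneg _
    have e2 : 1024 * π * X / b * (1 / 2 / Nn) = 512 * π * X / (b * Nn) := by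
      field_simp
      ring
    rw [e2, div_le_div_iff₀ (by positivity) (by positivity)]
    have h5 : |s * c| * (b * Nn) ≤ 128 * Dd ^ 2 := by
      calc |s * c| * (b * Nn) = (2 * b * |s * c|) * Nn / 2 := by ring
        _ ≤ Dd * (256 * Dd) / 2 := by
            have := mul_le_mul hsc hND hN.le hD.le
            linarith
        _ = _ := by ring
    calc 4 * π * (|s * c| * X) * (b * Nn) = 4 * π * X * (|s * c| * (b * Nn)) := by ring
      _ ≤ 4 * π * X * (128 * Dd ^ 2) := by gcongr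
      _ = 512 * π * X * Dd ^ 2 := by ring

/-- The Lipschitz bound for the second cocycle. -/
theorem fG_bound (a ε : ℝ) (ha : 1 ≤ a) (hε : ε ^ 2 = 1) :
    ∃ f' : ℝ → ℝ, (∀ t, HasDerivAt (fun u : ℝ => (1 + (a ^ 2 - 1) * sin (2 * π * u) ^ 2) /
      (1 + sin (2 * π * u) ^ 2 - 2 * (ε * sin (2 * π * u) * cos (2 * π * u)) +
        (a ^ 2 - 1) * sin (2 * π * u) ^ 2)) (f' t) t) ∧
      ∀ t, |f' t| ≤ 640 * π * ((1 / 2) / (1 + (a ^ 2 - 1) * sin (2 * π * t) ^ 2)) := by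
  have hε1 : |ε| = 1 := by
    have := sq_abs ε
    rw [hε] at this
    nlinarith [abs_nonneg ε]
  have hDp : ∀ s c : ℝ, s ^ 2 + c ^ 2 = 1 →
      (1 + (a ^ 2 - 1) * s ^ 2) / 4 ≤ 1 + s ^ 2 - 2 * (ε * s * c) + (a ^ 2 - 1) * s ^ 2 := by
    intro s c h1
    have h2 : 0 ≤ (a ^ 2 - 1) * s ^ 2 := mul_nonneg (by nlinarith) (sq_nonneg _)
    have h3 : (1 : ℝ) / 4 ≤ 1 + s ^ 2 - 2 * (ε * s * c) := by
      have h4 : 2 * (ε * s * c) ≤ 3 / 4 + s ^ 2 := by
        have h5 : (ε * s * c) ^ 2 = s ^ 2 * (1 - s ^ 2) := by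
          rw [mul_pow, mul_pow, hε]
          linear_combination s ^ 2 * h1
        have h6 : (2 * (ε * s * c)) ^ 2 ≤ (3 / 4 + s ^ 2) ^ 2 := by
          nlinarith [sq_nonneg (s ^ 2 - 1 / 4)]
        exact (abs_le_of_sq_le_sq' h6 (by positivity)).2
      linarith
    linarith
  refine ⟨fun t => ((a ^ 2 - 1) * (2 * sin (2 * π * t) * (cos (2 * π * t) * (2 * π))) *
      (sin (2 * π * t) ^ 2 - 2 * (ε * sin (2 * π * t) * cos (2 * π * t))) -
      (1 + (a ^ 2 - 1) * sin (2 * π * t) ^ 2) * (2 * sin (2 * π * t) * (cos (2 * π * t) * (2 * π))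
        - 2 * (ε * (cos (2 * π * t) * (2 * π)) * cos (2 * π * t) +
          ε * sin (2 * π * t) * (-sin (2 * π * t) * (2 * π))))) /
    (1 + sin (2 * π * t) ^ 2 - 2 * (ε * sin (2 * π * t) * cos (2 * π * t)) +
        (a ^ 2 - 1) * sin (2 * π * t) ^ 2) ^ 2, fun t => ?_, fun t => ?_⟩
  · obtain ⟨hs, hc, hs2⟩ := der_sc t
    have h1 := sin_sq_add_cos_sq (2 * π * t)
    have hN := den_pos a (sin (2 * π * t) ^ 2) ha (sq_nonneg _)
    have hD := hDp _ _ h1
    have hD0 : 1 + sin (2 * π * t) ^ 2 - 2 * (ε * sin (2 * π * t) * cos (2 * π * t)) +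
        (a ^ 2 - 1) * sin (2 * π * t) ^ 2 ≠ 0 := by
      apply ne_of_gt
      linarith
    have hNd := (hs2.const_mul (a ^ 2 - 1)).const_add 1
    have hDd := (((hs2.const_add 1).sub (((hs.const_mul ε).mul hc).const_mul 2))).add
      (hs2.const_mul (a ^ 2 - 1))
    have h2 := hNd.div hDd hD0
    refine h2.congr_deriv ?_
    congr 1
    simp only [Pi.mul_apply, Pi.sub_apply, Pi.add_apply]
    ring
  · beta_reduce
    have hπ := pi_pos
    have h1 := sin_sq_add_cos_sq (2 * π * t)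
    have hN := den_pos a (sin (2 * π * t) ^ 2) ha (sq_nonneg _)
    have hD := hDp _ _ h1
    generalize sin (2 * π * t) = s at *
    generalize cos (2 * π * t) = c at *
    have hp : 0 ≤ (a ^ 2 - 1) * s ^ 2 := mul_nonneg (by nlinarith) (sq_nonneg _)
    have hs1 : |s| ≤ 1 := by
      rw [abs_le]; constructor <;> nlinarith [sq_nonneg c]
    have hc1 : |c| ≤ 1 := by
      rw [abs_le]; constructor <;> nlinarith [sq_nonneg s]
    set Nn := 1 + (a ^ 2 - 1) * s ^ 2 with hNn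
    set Dd := 1 + s ^ 2 - 2 * (ε * s * c) + (a ^ 2 - 1) * s ^ 2 with hDd
    have hDd0 : 0 < Dd := by linarith
    have b1 : |(a ^ 2 - 1) * (2 * s * (c * (2 * π))) * (s ^ 2 - 2 * (ε * s * c))| ≤
        12 * π * Nn := by
      have e1 : (a ^ 2 - 1) * (2 * s * (c * (2 * π))) * (s ^ 2 - 2 * (ε * s * c)) =
          4 * π * ((a ^ 2 - 1) * s ^ 2) * (c * (s - 2 * (ε * c))) := by ring
      have e2 : |c * (s - 2 * (ε * c))| ≤ 3 := by
        rw [abs_mul]
        have e3 : |s - 2 * (ε * c)| ≤ 3 := by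
          have e4 : |2 * (ε * c)| ≤ 2 := by
            rw [abs_mul, abs_mul, hε1]
            norm_num
            exact hc1
          have e5 := abs_sub s (2 * (ε * c))
          linarith
        calc |c| * |s - 2 * (ε * c)| ≤ 1 * 3 := mul_le_mul hc1 e3 (abs_nonneg _) zero_le_one
          _ = 3 := by norm_num
      rw [e1, abs_mul, abs_of_nonneg (by positivity : 0 ≤ 4 * π * ((a ^ 2 - 1) * s ^ 2))]
      calc 4 * π * ((a ^ 2 - 1) * s ^ 2) * |c * (s - 2 * (ε * c))|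
          ≤ 4 * π * ((a ^ 2 - 1) * s ^ 2) * 3 := by gcongr
        _ = 12 * π * ((a ^ 2 - 1) * s ^ 2) := by ring
        _ ≤ 12 * π * Nn := by
            have : (a ^ 2 - 1) * s ^ 2 ≤ Nn := by rw [hNn]; linarith
            gcongr
    have b2 : |Nn * (2 * s * (c * (2 * π)) - 2 * (ε * (c * (2 * π)) * c +
        ε * s * (-s * (2 * π))))| ≤ 8 * π * Nn := by
      have e1 : Nn * (2 * s * (c * (2 * π)) - 2 * (ε * (c * (2 * π)) * c +
        ε * s * (-s * (2 * π)))) = 4 * π * Nn * (s * c - ε * (c ^ 2 - s ^ 2)) := by ring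
      have e2 : |s * c - ε * (c ^ 2 - s ^ 2)| ≤ 2 := by
        have e3 : |s * c| ≤ 1 := by
          rw [abs_mul]
          calc |s| * |c| ≤ 1 * 1 := mul_le_mul hs1 hc1 (abs_nonneg _) zero_le_one
            _ = 1 := by norm_num
        have e4 : |ε * (c ^ 2 - s ^ 2)| ≤ 1 := by
          rw [abs_mul, hε1, one_mul, abs_le]
          constructor <;> nlinarith [sq_nonneg s, sq_nonneg c]
        have e5 := abs_sub (s * c) (ε * (c ^ 2 - s ^ 2))
        linarith
      rw [e1, abs_mul, abs_of_nonneg (by positivity : 0 ≤ 4 * π * Nn)]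
      calc 4 * π * Nn * |s * c - ε * (c ^ 2 - s ^ 2)| ≤ 4 * π * Nn * 2 := by gcongr
        _ = _ := by ring
    have b3 := abs_sub ((a ^ 2 - 1) * (2 * s * (c * (2 * π))) * (s ^ 2 - 2 * (ε * s * c)))
      (Nn * (2 * s * (c * (2 * π)) - 2 * (ε * (c * (2 * π)) * c + ε * s * (-s * (2 * π)))))
    rw [abs_div, abs_of_pos (by positivity : 0 < Dd ^ 2)]
    have e2 : 640 * π * (1 / 2 / Nn) = 320 * π / Nn := by
      field_simp
      ring
    rw [e2, div_le_div_iff₀ (by positivity) hN]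
    have b4 : (Nn / 4) ^ 2 ≤ Dd ^ 2 := pow_le_pow_left₀ (by positivity) hD 2
    calc _ ≤ (20 * π * Nn) * Nn := by
          refine mul_le_mul_of_nonneg_right ?_ hN.le
          linarith
      _ = 320 * π * (Nn / 4) ^ 2 := by ring
      _ ≤ 320 * π * Dd ^ 2 := by gcongr

end CommCA
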