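import Pool.Agent.Helper72.CommCA.Dens

/-!
# Integrals of the density
-/

open Set Filter Topology Real

namespace CommCA

private noncomputable def kf (A u : ℝ) : ℝ :=
  2 * u + (1 / π) * arctan ((A - 1) * (sin (2 * π * u) * cos (2 * π * u)) /
    (cos (2 * π * u) ^ 2 + A * sin (2 * π * u) ^ 2))

private theorem kf_deriv {A : ℝ} (hA : 1 ≤ A) (u : ℝ) :
    HasDerivAt (kf A) (2 * A / (1 + (A ^ 2 - 1) * sin (2 * π * u) ^ 2)) u := by
  have hl : HasDerivAt (fun u : ℝ => 2 * π * u) (2 * π) u := by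
    simpa using (hasDerivAt_id u).const_mul (2 * π)
  have hs : HasDerivAt (fun u : ℝ => sin (2 * π * u)) (cos (2 * π * u) * (2 * π)) u := hl.sin
  have hc : HasDerivAt (fun u : ℝ => cos (2 * π * u)) (-sin (2 * π * u) * (2 * π)) u := hl.cos
  have h1 := sin_sq_add_cos_sq (2 * π * u)
  have hD : 0 < cos (2 * π * u) ^ 2 + A * sin (2 * π * u) ^ 2 := by
    nlinarith [sq_nonneg (sin (2 * π * u)), sq_nonneg (cos (2 * π * u))]
  have hE : 0 < 1 + (A ^ 2 - 1) * sin (2 * π * u) ^ 2 := by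
    have : 0 ≤ (A ^ 2 - 1) * sin (2 * π * u) ^ 2 := mul_nonneg (by nlinarith) (sq_nonneg _)
    linarith
  have hnum : HasDerivAt (fun u : ℝ => (A - 1) * (sin (2 * π * u) * cos (2 * π * u)))
      ((A - 1) * (cos (2 * π * u) * (2 * π) * cos (2 * π * u) +
        sin (2 * π * u) * (-sin (2 * π * u) * (2 * π)))) u := (hs.mul hc).const_mul (A - 1)
  have hden : HasDerivAt (fun u : ℝ => cos (2 * π * u) ^ 2 + A * sin (2 * π * u) ^ 2)
      (2 * cos (2 * π * u) * (-sin (2 * π * u) * (2 * π)) +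
        A * (2 * sin (2 * π * u) * (cos (2 * π * u) * (2 * π)))) u := by
    have a1 := hc.pow 2
    have a2 := (hs.pow 2).const_mul A
    have := a1.add a2
    refine (this.congr_deriv ?_)
    simp
  have hR := hnum.div hden hD.ne'
  have hat := (hR.arctan).const_mul (1 / π)
  have hl2 : HasDerivAt (fun u : ℝ => 2 * u) 2 u := by
    simpa using (hasDerivAt_id u).const_mul (2 : ℝ)
  have hsum := hl2.add hat
  refine hsum.congr_deriv ?_
  have hpi := pi_ne_zero
  have hc2 : cos (2 * π * u) ^ 2 = 1 - sin (2 * π * u) ^ 2 := by linarith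
  simp only [Pi.div_apply]
  clear hsum hat hR hnum hden hs hc hl hl2

  generalize sin (2 * π * u) = s at *
  generalize cos (2 * π * u) = c at *
  have hF : (c ^ 2 + A * s ^ 2) ^ 2 + ((A - 1) * (s * c)) ^ 2 = 1 + (A ^ 2 - 1) * s ^ 2 := by
    have : (c ^ 2 + A * s ^ 2) ^ 2 + ((A - 1) * (s * c)) ^ 2 =
      (c ^ 2 + A ^ 2 * s ^ 2) * (c ^ 2 + s ^ 2) := by ring
    rw [this, hc2]; ring
  have hG : 1 + ((A - 1) * (s * c) / (c ^ 2 + A * s ^ 2)) ^ 2 =
      (1 + (A ^ 2 - 1) * s ^ 2) / (c ^ 2 + A * s ^ 2) ^ 2 := by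
    rw [← hF]; field_simp
  rw [hG]
  field_simp
  have e1 : c ^ 2 = 1 - s ^ 2 := hc2
  have e3 : c ^ 3 = c * (1 - s ^ 2) := by rw [← e1]; ring
  have e4 : c ^ 4 = (1 - s ^ 2) ^ 2 := by rw [← e1]; ring
  ring_nf
  simp only [e1, e4]
  ring

private theorem piece (μ N : ℕ) (n : ℤ) :
    ∫ u in ((n : ℝ) / 2)..(((n : ℝ) + 1) / 2), dens μ N u = 1 / (4 * A μ (ix μ N n)) := by
  set A : ℝ := A μ (ix μ N n) with hAd
  have hA : 1 ≤ A := one_le_A μ _
  have hs1 : sin (2 * π * (((n : ℝ) + 1) / 2)) = 0 := by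
    have : 2 * π * (((n : ℝ) + 1) / 2) = ((n + 1 : ℤ) : ℝ) * π := by push_cast; ring
    rw [this, sin_int_mul_pi]
  have hs0 : sin (2 * π * ((n : ℝ) / 2)) = 0 := by
    have : 2 * π * ((n : ℝ) / 2) = (n : ℝ) * π := by ring
    rw [this, sin_int_mul_pi]
  have hE : ∀ u : ℝ, 0 < 1 + (A ^ 2 - 1) * sin (2 * π * u) ^ 2 := fun u => by
    have : 0 ≤ (A ^ 2 - 1) * sin (2 * π * u) ^ 2 := mul_nonneg (by nlinarith) (sq_nonneg _)
    linarith
  have hle : (n : ℝ) / 2 ≤ ((n : ℝ) + 1) / 2 := by linarith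
  have heq : ∀ u ∈ uIcc ((n : ℝ) / 2) (((n : ℝ) + 1) / 2), dens μ N u =
      1 / (4 * A) * (2 * A / (1 + (A ^ 2 - 1) * sin (2 * π * u) ^ 2)) := by
    intro u hu
    rw [uIcc_of_le hle] at hu
    have hA0 : A ≠ 0 := by positivity
    have hE' := (hE u).ne'
    rcases eq_or_lt_of_le hu.2 with h | h
    · have hz : sin (2 * π * u) = 0 := by rw [h]; exact hs1
      simp only [dens, hz]
      field_simp
      ring
    · have hf : ⌊2 * u⌋ = n := by
        rw [Int.floor_eq_iff]; constructor <;> linarith [hu.1]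
      simp only [dens, amp, hf, ← hAd]
      field_simp
      ring
  have hcont2 : Continuous fun u : ℝ => 2 * A / (1 + (A ^ 2 - 1) * sin (2 * π * u) ^ 2) :=
    continuous_const.div (by fun_prop) fun u => (hE u).ne'
  rw [intervalIntegral.integral_congr heq, intervalIntegral.integral_const_mul,
    intervalIntegral.integral_eq_sub_of_hasDerivAt (fun u _ => kf_deriv hA u)
      (hcont2.intervalIntegrable _ _)]
  simp only [kf, hs0, hs1]
  simp
  ring

private theorem ix_nonneg (μ N k : ℕ) (hk : k < N + Q μ N) : ix μ N (k : ℤ) = min k N := by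
  have h1 := ix_cast μ N (k : ℤ)
  rw [kap_of_nonneg _ _ _ (by omega) (by omega)] at h1
  omega

private theorem ix_neg (μ N k : ℕ) (hk : k < N + Q μ N) :
    ix μ N (-((k : ℤ) + 1)) = min k N := by
  have h1 := ix_cast μ N (-((k : ℤ) + 1))
  rw [kap_of_neg _ _ _ (by omega) (by omega)] at h1
  omega

private theorem hii (μ N : ℕ) (a b : ℝ) :
    IntervalIntegrable (dens μ N) MeasureTheory.volume a b :=
  (continuous_dens μ N).intervalIntegrable a b

theorem integral_dens_pos (μ N : ℕ) :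
    ∫ u in (0 : ℝ)..(((N + Q μ N : ℕ) : ℝ) / 2), dens μ N u = 1 / 2 := by
  have := intervalIntegral.sum_integral_adjacent_intervals (f := dens μ N)
    (μ := MeasureTheory.volume) (a := fun k : ℕ => (k : ℝ) / 2) (n := N + Q μ N)
    (fun k _ => hii μ N _ _)
  have e0 : ((0 : ℕ) : ℝ) / 2 = 0 := by simp
  rw [e0] at this
  rw [← this, ← sum_len μ N]
  refine Finset.sum_congr rfl fun k h => ?_
  have h2 := piece μ N (k : ℤ)
  rw [ix_nonneg μ N k (Finset.mem_range.1 h)] at h2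
  rw [← h2]
  simp

theorem integral_dens_neg (μ N : ℕ) :
    ∫ u in (-(((N + Q μ N : ℕ) : ℝ) / 2))..0, dens μ N u = 1 / 2 := by
  have hI : ∀ k ∈ Finset.range (N + Q μ N),
      (∫ u in (-(k : ℝ) / 2)..(-((k + 1 : ℕ) : ℝ) / 2), dens μ N u) =
        -(1 / (4 * A μ (min k N))) := by
    intro k h
    have h2 := piece μ N (-((k : ℤ) + 1))
    rw [ix_neg μ N k (Finset.mem_range.1 h)] at h2
    have a1 : (((-((k : ℤ) + 1) : ℤ) : ℝ)) / 2 = -((k + 1 : ℕ) : ℝ) / 2 := by push_cast; ring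
    have a2 : ((((-((k : ℤ) + 1) : ℤ) : ℝ)) + 1) / 2 = -(k : ℝ) / 2 := by push_cast; ring
    rw [a1, a2] at h2
    rw [intervalIntegral.integral_symm, h2]
  have := intervalIntegral.sum_integral_adjacent_intervals (f := dens μ N)
    (μ := MeasureTheory.volume) (a := fun k : ℕ => -(k : ℝ) / 2) (n := N + Q μ N)
    (fun k _ => hii μ N _ _)
  have e0 : -((0 : ℕ) : ℝ) / 2 = 0 := by simp
  have e1 : -((N + Q μ N : ℕ) : ℝ) / 2 = -(((N + Q μ N : ℕ) : ℝ) / 2) := by ring
  rw [e0, e1] at this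
  rw [intervalIntegral.integral_symm, ← this, Finset.sum_congr rfl hI, Finset.sum_neg_distrib,
    sum_len μ N]
  ring

theorem integral_dens_period (μ N : ℕ) :
    ∫ u in (0 : ℝ)..((N + Q μ N : ℕ) : ℝ), dens μ N u = 1 := by
  have hper : Function.Periodic (dens μ N) ((N + Q μ N : ℕ) : ℝ) := dens_add_period μ N
  have h1 := hper.intervalIntegral_add_eq 0 (-(((N + Q μ N : ℕ) : ℝ) / 2))
  have e1 : -(((N + Q μ N : ℕ) : ℝ) / 2) + ((N + Q μ N : ℕ) : ℝ) =
      ((N + Q μ N : ℕ) : ℝ) / 2 := by ring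
  rw [e1, zero_add] at h1
  rw [h1, ← intervalIntegral.integral_add_adjacent_intervals (hii μ N _ 0) (hii μ N 0 _),
    integral_dens_neg, integral_dens_pos]
  norm_num

end CommCA
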