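import Pool.Agent.Helper72.CommCA.Par

/-!
# Elementary properties of the index `kap`
-/

open Set Filter Topology Real

namespace CommCA

/-- The index of the `n`-th half integer interval; the period is `2 * (N + q)`. -/
def kap (q N : ℕ) (n : ℤ) : ℤ :=
  min (min (n % (2 * N + 2 * q)) (2 * N + 2 * q - 1 - n % (2 * N + 2 * q))) N

private theorem kap_mod (q N : ℕ) (hq : 0 < q) (n : ℤ) :
    0 ≤ n % (2 * (N : ℤ) + 2 * q) ∧ n % (2 * (N : ℤ) + 2 * q) < 2 * (N : ℤ) + 2 * q :=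
  ⟨Int.emod_nonneg _ (by omega), Int.emod_lt_of_pos _ (by omega)⟩

theorem kap_nonneg (q N : ℕ) (hq : 0 < q) (n : ℤ) : 0 ≤ kap q N n := by
  have h := kap_mod q N hq n
  unfold kap
  simp only [le_min_iff]
  omega

theorem kap_le (q N : ℕ) (n : ℤ) : kap q N n ≤ N := min_le_right _ _

theorem kap_add_period (q N : ℕ) (n : ℤ) : kap q N (n + (2 * N + 2 * q)) = kap q N n := by
  unfold kap
  rw [Int.add_emod_right]

private theorem emod_add_one (m n : ℤ) (hm : 0 < m) :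
    (n + 1) % m = n % m + 1 ∨ ((n + 1) % m = 0 ∧ n % m = m - 1) := by
  have h1 := Int.emod_nonneg n (ne_of_gt hm)
  have h2 := Int.emod_lt_of_pos n hm
  have h3 : (n + 1) % m = (n % m + 1) % m := by
    rw [Int.add_emod, Int.add_emod (n % m) 1, Int.emod_emod_of_dvd _ (dvd_refl m)]
  rcases lt_or_eq_of_le (show n % m + 1 ≤ m by omega) with h | h
  · left
    rw [h3, Int.emod_eq_of_lt (by omega) h]
  · right
    refine ⟨?_, by omega⟩
    rw [h3, h, Int.emod_self]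

private theorem abs_kap_add_one (q N : ℕ) (hq : 0 < q) (n : ℤ) :
    |kap q N (n + 1) - kap q N n| ≤ 1 := by
  have h := kap_mod q N hq n
  have h' := kap_mod q N hq (n + 1)
  rw [abs_le]
  unfold kap
  rcases emod_add_one (2 * (N : ℤ) + 2 * q) n (by omega) with h1 | ⟨h1, h2⟩
  · rw [h1] at h' ⊢
    generalize n % (2 * (N : ℤ) + 2 * q) = r at h h' ⊢
    omega
  · rw [h1, h2]
    omega

theorem abs_kap_add_two (q N : ℕ) (hq : 0 < q) (n : ℤ) :
    |kap q N (n + 2) - kap q N n| ≤ 2 := by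
  have h1 := abs_kap_add_one q N hq n
  have h2 := abs_kap_add_one q N hq (n + 1)
  rw [show n + 1 + 1 = n + 2 by ring] at h2
  rw [abs_le] at h1 h2 ⊢
  omega

/-- `kap q N n = min n N` for `0 ≤ n < N + q`. -/
theorem kap_of_nonneg (q N : ℕ) (n : ℤ) (h0 : 0 ≤ n) (h1 : n < N + q) :
    kap q N n = min n N := by
  unfold kap
  rw [Int.emod_eq_of_lt h0 (by omega)]
  omega

/-- `kap q N n = min (-1-n) N` for `-(N + q) ≤ n < 0`. -/
theorem kap_of_neg (q N : ℕ) (n : ℤ) (h0 : n < 0) (h1 : -((N : ℤ) + q) ≤ n) :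
    kap q N n = min (-1 - n) N := by
  unfold kap
  have : n % (2 * (N : ℤ) + 2 * q) = n + (2 * (N : ℤ) + 2 * q) := by
    rw [← Int.add_emod_right, Int.emod_eq_of_lt (by omega) (by omega)]
  rw [this]
  omega

theorem kap_eq_of_le {q r N M : ℕ} (hq : 0 < q) (hr : 0 < r) (h : N ≤ M) (n : ℤ)
    (h0 : -(N + 1 : ℤ) ≤ n) (h1 : n ≤ N) : kap r M n = kap q N n := by
  rcases le_or_gt 0 n with h2 | h2
  · rw [kap_of_nonneg r M n h2 (by omega), kap_of_nonneg q N n h2 (by omega)]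
    omega
  · rw [kap_of_neg r M n h2 (by omega), kap_of_neg q N n h2 (by omega)]
    omega

theorem kap_far {q N M : ℕ} (hq : 0 < q) (h : N ≤ M) (hN : 1 ≤ N) (n : ℤ)
    (h0 : -((M : ℤ) + q) ≤ n) (h1 : n ≤ (M : ℤ) + q) (h2 : n ≤ -(N + 2 : ℤ) ∨ (N : ℤ) - 1 ≤ n) :
    (N : ℤ) - 1 ≤ kap q M n := by
  rcases lt_or_ge n 0 with h3 | h3
  · rw [kap_of_neg q M n h3 (by omega)]
    omega
  · rcases lt_or_eq_of_le h1 with h4 | h4
    · rw [kap_of_nonneg q M n h3 (by omega)]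
      omega
    · unfold kap
      rw [Int.emod_eq_of_lt h3 (by omega)]
      omega

end CommCA
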