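import Pool.Agent.Helper17.CommC1.Limit
import Pool.Agent.Helper17.CommC1.Conj
import Pool.Agent.Helper72.CommCA.Int
import Pool.Agent.Helper72.CommCA.Coc

/-!
# The lifts and their limit
-/

open Set Filter Topology

namespace CommCA

open CommC1 (IsLift exists_conj exists_limit_lift ghat gam gam_pos ghat_add_one gam_add_one
  continuous_gam hasDerivAt_ghat ghat_zero floor_ghat quarter_lt_ghat ghat_neg_quarter_lt)

/-- Half of the period. -/
noncomputable def hp (μ N : ℕ) : ℝ := ((N + Q μ N : ℕ) : ℝ) / 2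

theorem hp_ge (μ N : ℕ) : (N : ℝ) + 1 ≤ hp μ N := by
  have := Q_ge' μ N
  unfold hp
  push_cast
  linarith

/-- The data at level `N`. -/
theorem exists_e (μ N : ℕ) : ∃ e : ℝ ≃o ℝ, (∀ u, e u = 1 / 2 + ∫ t in (0 : ℝ)..u, dens μ N t) ∧
      (∀ u, HasDerivAt e (dens μ N u) u) ∧
      (∀ T T' : ℝ → ℝ, (∀ u, T (u + 1) = T u + 1) → (∀ u, T' (u + 1) = T' u) →
        (∀ u, 0 < T' u) → Continuous T' → (∀ u, HasDerivAt T (T' u) u) →
        IsLift (fun x => e (T (e.symm x)))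
          (fun x => dens μ N (T (e.symm x)) * T' (e.symm x) / dens μ N (e.symm x))) := by
  obtain ⟨e, h1, h2, h3, h4, h5⟩ := exists_conj (dens μ N) (continuous_dens μ N) (dens_pos μ N)
    (N + Q μ N) (by have := Q_pos μ N; omega) (dens_add_period μ N)
    (integral_dens_period μ N)
  exact ⟨e, h1, h4, h5⟩

/-- The coordinate at level `N`. -/
noncomputable def eN (μ N : ℕ) : ℝ ≃o ℝ := (exists_e μ N).choose

theorem eN_apply (μ N : ℕ) (u : ℝ) : eN μ N u = 1 / 2 + ∫ t in (0 : ℝ)..u, dens μ N t :=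
  (exists_e μ N).choose_spec.1 u

theorem eN_deriv (μ N : ℕ) (u : ℝ) : HasDerivAt (eN μ N) (dens μ N u) u :=
  (exists_e μ N).choose_spec.2.1 u

theorem eN_lift (μ N : ℕ) (T T' : ℝ → ℝ) (h1 : ∀ u, T (u + 1) = T u + 1)
    (h2 : ∀ u, T' (u + 1) = T' u) (h3 : ∀ u, 0 < T' u) (h4 : Continuous T')
    (h5 : ∀ u, HasDerivAt T (T' u) u) :
    IsLift (fun x => eN μ N (T ((eN μ N).symm x)))
      (fun x => dens μ N (T ((eN μ N).symm x)) * T' ((eN μ N).symm x) /
        dens μ N ((eN μ N).symm x)) :=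
  (exists_e μ N).choose_spec.2.2 T T' h1 h2 h3 h4 h5

theorem eN_top (μ N : ℕ) : eN μ N (hp μ N) = 1 := by
  rw [eN_apply, hp, integral_dens_pos]; norm_num

theorem eN_bot (μ N : ℕ) : eN μ N (-hp μ N) = 0 := by
  rw [eN_apply, intervalIntegral.integral_symm, hp, integral_dens_neg]; norm_num

theorem eN_eq {μ N M : ℕ} (h : N ≤ M) (u : ℝ) (h0 : -((N + 1 : ℝ) / 2) ≤ u)
    (h1 : u < (N + 1 : ℝ) / 2) : eN μ M u = eN μ N u := by
  rw [eN_apply, eN_apply]
  congr 1
  refine intervalIntegral.integral_congr fun t ht => ?_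
  have hN : (0 : ℝ) ≤ N := N.cast_nonneg
  rw [mem_uIcc] at ht
  refine dens_eq_of_le h t ?_ ?_
  · rcases ht with ht | ht <;> linarith [ht.1, ht.2]
  · rcases ht with ht | ht <;> linarith [ht.1, ht.2]

/-- The general limit statement for a map `T` of the line with cocycle `c`. -/
theorem exists_limit_T (μ : ℕ) (T T' : ℝ → ℝ) (h1 : ∀ u, T (u + 1) = T u + 1)
    (h2 : ∀ u, T' (u + 1) = T' u) (h3 : ∀ u, 0 < T' u) (h4 : Continuous T')
    (h5 : ∀ u, HasDerivAt T (T' u) u) (c : ℕ → ℝ → ℝ)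
    (hc : ∀ N u, c N u = dens μ N (T u) * T' u / dens μ N u)
    (near : ∀ {N M : ℕ} (_ : N ≤ M) (u : ℝ) (_ : -((N + 1 : ℝ) / 2) ≤ u)
      (_ : u < (N - 1 : ℝ) / 2), c M u = c N u)
    (δ : ℕ → ℝ) (hδ : Tendsto δ atTop (𝓝 0)) (s : ℕ)
    (far : ∀ N M : ℕ, s ≤ N → N ≤ M → ∀ u : ℝ, -hp μ M ≤ u → u ≤ hp μ M →
      (u < -((N + 1 : ℝ) / 2) ∨ (N - 1 : ℝ) / 2 ≤ u) → |c M u - 1| ≤ δ N)
    (κ : ℝ) (hκ : 0 < κ) (hD : ∀ N u, κ ≤ c N u)
    (hT0 : -((s + 1 : ℝ) / 2) ≤ T 0) (hT0' : T 0 < (s + 1 : ℝ) / 2) :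
    ∃ F₀ D₀ : ℝ → ℝ, IsLift F₀ D₀ ∧
      TendstoUniformly (fun n x => eN μ (s + n) (T ((eN μ (s + n)).symm x))) F₀ atTop ∧
      TendstoUniformly (fun n x => c (s + n) ((eN μ (s + n)).symm x)) D₀ atTop ∧
      (∀ x, Tendsto (fun n => eN μ (s + n) (T ((eN μ (s + n)).symm x))) atTop (𝓝 (F₀ x))) ∧
      ∀ (N : ℕ) (u : ℝ), -((N + 1 : ℝ) / 2) ≤ u → u < (N + 1 : ℝ) / 2 →
        -((N + 1 : ℝ) / 2) ≤ T u → T u < (N + 1 : ℝ) / 2 → F₀ (eN μ N u) = eN μ N (T u) := by
  have hlift : ∀ n, IsLift (fun x => eN μ (s + n) (T ((eN μ (s + n)).symm x)))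
      (fun x => c (s + n) ((eN μ (s + n)).symm x)) := by
    intro n
    have := eN_lift μ (s + n) T T' h1 h2 h3 h4 h5
    simp only [← hc] at this
    exact this
  have hcauchy : ∀ n m, n ≤ m → ∀ x, |c (s + n) ((eN μ (s + n)).symm x) -
      c (s + m) ((eN μ (s + m)).symm x)| ≤ 2 * δ (s + n) := by
    intro n m hnm x
    have hper : Function.Periodic (fun x => c (s + n) ((eN μ (s + n)).symm x) -
      c (s + m) ((eN μ (s + m)).symm x)) 1 := fun x => by
      show c (s + n) ((eN μ (s + n)).symm (x + 1)) - c (s + m) ((eN μ (s + m)).symm (x + 1)) = _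
      rw [(hlift n).per x, (hlift m).per x]
    obtain ⟨z, hz, hzx⟩ := hper.exists_mem_Ico₀ one_pos x
    have hzx' : c (s + n) ((eN μ (s + n)).symm x) - c (s + m) ((eN μ (s + m)).symm x) =
      c (s + n) ((eN μ (s + n)).symm z) - c (s + m) ((eN μ (s + m)).symm z) := hzx
    rw [hzx']
    set N := s + n with hN
    set M := s + m with hM
    have hNM : N ≤ M := by omega
    have hsN : s ≤ N := by omega
    have hpos : 0 ≤ δ N := by
      have h0 := hp_ge μ N
      refine (abs_nonneg _).trans (far N N hsN le_rfl (hp μ N) ?_ le_rfl (Or.inr ?_))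
      · have : (0 : ℝ) ≤ N := N.cast_nonneg
        linarith
      · have : (0 : ℝ) ≤ N := N.cast_nonneg
        linarith
    set u := (eN μ N).symm z with hu
    set v := (eN μ M).symm z with hv
    have eu : eN μ N u = z := (eN μ N).apply_symm_apply z
    have ev : eN μ M v = z := (eN μ M).apply_symm_apply z
    have hu1 : -hp μ N ≤ u := by
      rw [← (eN μ N).le_iff_le, eu, eN_bot]; exact hz.1
    have hu2 : u ≤ hp μ N := by
      rw [← (eN μ N).le_iff_le, eu, eN_top]; exact hz.2.le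
    have hv1 : -hp μ M ≤ v := by
      rw [← (eN μ M).le_iff_le, ev, eN_bot]; exact hz.1
    have hv2 : v ≤ hp μ M := by
      rw [← (eN μ M).le_iff_le, ev, eN_top]; exact hz.2.le
    by_cases hcase : -((N + 1 : ℝ) / 2) ≤ u ∧ u < (N - 1 : ℝ) / 2
    · have huv : u = v := by
        apply (eN μ M).injective
        rw [ev, eN_eq hNM u hcase.1 (by linarith [hcase.2]), eu]
      rw [← huv, near hNM u hcase.1 hcase.2, sub_self, abs_zero]
      linarith
    · have hu3 : u < -((N + 1 : ℝ) / 2) ∨ (N - 1 : ℝ) / 2 ≤ u := by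
        by_contra hcon
        rw [not_or, not_lt, not_le] at hcon
        exact hcase hcon
      have hv3 : v < -((N + 1 : ℝ) / 2) ∨ (N - 1 : ℝ) / 2 ≤ v := by
        by_contra hcon
        rw [not_or, not_lt, not_le] at hcon
        have huv : u = v := by
          apply (eN μ N).injective
          rw [eu, ← eN_eq hNM v hcon.1 (by linarith [hcon.2]), ev]
        rw [huv] at hcase
        exact hcase hcon
      have g1 := far N N hsN le_rfl u hu1 hu2 hu3
      have g2 := far N M hsN hNM v hv1 hv2 hv3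
      have g3 := abs_sub_le (c N u) 1 (c M v)
      rw [abs_sub_comm 1] at g3
      linarith
  have hb : Tendsto (fun n => 2 * δ (s + n)) atTop (𝓝 0) := by
    have h6 : Tendsto (fun n : ℕ => s + n) atTop atTop := by
      simpa only [add_comm] using tendsto_add_atTop_nat s
    have := (hδ.comp h6).const_mul 2
    simpa using this
  have hbase : ∀ n m, eN μ (s + n) (T ((eN μ (s + n)).symm (1 / 2))) =
      eN μ (s + m) (T ((eN μ (s + m)).symm (1 / 2))) := by
    have h7 : ∀ n, eN μ (s + n) (T ((eN μ (s + n)).symm (1 / 2))) = eN μ s (T 0) := by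
      intro n
      have h8 : (eN μ (s + n)).symm (1 / 2) = 0 := by
        rw [OrderIso.symm_apply_eq, eN_apply]; simp
      rw [h8, eN_eq (by omega : s ≤ s + n) _ hT0 hT0']
    intro n m
    rw [h7, h7]
  obtain ⟨F₀, D₀, k1, k2, k3, k4⟩ := exists_limit_lift _ _ _ hb hlift hcauchy κ hκ
    (fun n x => hD _ _) (1 / 2) (by norm_num) (by norm_num) hbase
  refine ⟨F₀, D₀, k1, k2, k3, k4, ?_⟩
  intro N u a1 a2 a3 a4
  refine tendsto_nhds_unique (k4 (eN μ N u)) ?_
  refine Tendsto.congr' ?_ tendsto_const_nhds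
  filter_upwards [eventually_ge_atTop N] with n hn
  have hNn : N ≤ s + n := by omega
  rw [← eN_eq hNn u a1 a2, OrderIso.symm_apply_apply, eN_eq hNn _ a3 a4]

theorem iterate_conj (e : ℝ ≃o ℝ) (j : ℕ) (x : ℝ) :
    (fun x => e (e.symm x + 1))^[j] x = e (e.symm x + j) := by
  induction j with
  | zero => simp
  | succ j ih =>
    rw [Function.iterate_succ_apply', ih]
    simp only [OrderIso.symm_apply_apply]
    congr 1
    push_cast
    ring

end CommCA
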