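import Pool.Agent.Helper17.CommC1.Defs

/-!
# Parameters of the construction

The amplitudes `A k` grow like `k ^ (1 + 1 / (μ + 1))`; for `μ = 0` they are the triangular
numbers.
-/

open Set Filter Topology Real

namespace CommCA

/-- The number of top intervals on each side. -/
def Q (μ N : ℕ) : ℕ := (μ + 1) * (N + 2)

theorem Q_ge (μ N : ℕ) : N + 2 ≤ Q μ N := by
  unfold Q
  nlinarith [Nat.zero_le (μ * (N + 2))]

/-- Twice the length of the part of the circle beyond the `k`-th interval. -/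
noncomputable def th (μ : ℕ) : ℕ → ℝ
  | 0 => 1
  | (k + 1) => th μ k * (1 - 1 / (Q μ k : ℝ))

theorem Q_ge' (μ k : ℕ) : (k : ℝ) + 2 ≤ (Q μ k : ℝ) := by
  have := Q_ge μ k
  exact_mod_cast this

theorem fac_pos (μ k : ℕ) : 0 < 1 - 1 / (Q μ k : ℝ) := by
  have h := Q_ge' μ k
  have hk : (0 : ℝ) ≤ k := k.cast_nonneg
  have : 1 / (Q μ k : ℝ) ≤ 1 / 2 := by
    apply div_le_div_of_nonneg_left <;> linarith
  linarith

theorem fac_le (μ k : ℕ) : 1 - 1 / (Q μ k : ℝ) ≤ 1 := by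
  have h := Q_ge' μ k
  have hk : (0 : ℝ) ≤ k := k.cast_nonneg
  have : 0 ≤ 1 / (Q μ k : ℝ) := by positivity
  linarith

theorem th_pos (μ k : ℕ) : 0 < th μ k := by
  induction k with
  | zero => exact one_pos
  | succ k ih => exact mul_pos ih (fac_pos μ k)

theorem th_le (μ k : ℕ) : th μ k ≤ 1 := by
  induction k with
  | zero => exact le_rfl
  | succ k ih =>
    have := mul_le_mul ih (fac_le μ k) (fac_pos μ k).le zero_le_one
    simpa [th] using this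

/-- The amplitudes. -/
noncomputable def A (μ k : ℕ) : ℝ := (Q μ k : ℝ) / (2 * th μ k)

theorem A_ge (μ k : ℕ) : ((k : ℝ) + 2) / 2 ≤ A μ k := by
  have h := Q_ge' μ k
  have h1 := th_pos μ k
  have h2 := th_le μ k
  have hk : (0 : ℝ) ≤ k := k.cast_nonneg
  unfold A
  rw [div_le_div_iff₀ (by norm_num) (by positivity)]
  nlinarith [mul_le_mul_of_nonneg_left h2 (by linarith : (0 : ℝ) ≤ (k : ℝ) + 2)]

theorem one_le_A (μ k : ℕ) : 1 ≤ A μ k := by
  have := A_ge μ k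
  have hk : (0 : ℝ) ≤ k := k.cast_nonneg
  linarith

theorem A_pos (μ k : ℕ) : 0 < A μ k := lt_of_lt_of_le one_pos (one_le_A μ k)

/-- The length of the `k`-th interval. -/
theorem len_eq (μ k : ℕ) : 1 / (4 * A μ k) = (th μ k - th μ (k + 1)) / 2 := by
  have h := Q_ge' μ k
  have h1 := th_pos μ k
  have hk : (0 : ℝ) ≤ k := k.cast_nonneg
  have hQ : (Q μ k : ℝ) ≠ 0 := by
    have : 0 < (Q μ k : ℝ) := by linarith
    exact this.ne'
  unfold A
  simp only [th]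
  field_simp
  ring

theorem top_eq (μ k : ℕ) : (Q μ k : ℝ) * (1 / (4 * A μ k)) = th μ k / 2 := by
  have h := Q_ge' μ k
  have h1 := th_pos μ k
  have hk : (0 : ℝ) ≤ k := k.cast_nonneg
  have hQ : (Q μ k : ℝ) ≠ 0 := by
    have : 0 < (Q μ k : ℝ) := by linarith
    exact this.ne'
  unfold A
  field_simp
  ring

/-- The total length of one side is `1 / 2`. -/
theorem sum_len (μ N : ℕ) :
    ∑ k ∈ Finset.range (N + Q μ N), 1 / (4 * A μ (min k N)) = 1 / 2 := by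
  rw [Finset.sum_range_add]
  have h1 : ∀ n ≤ N, ∑ k ∈ Finset.range n, 1 / (4 * A μ (min k N)) = (1 - th μ n) / 2 := by
    intro n
    induction n with
    | zero => intro _; simp [th]
    | succ n ih =>
      intro hn
      rw [Finset.sum_range_succ, ih (by omega), min_eq_left (by omega : n ≤ N), len_eq]
      ring
  rw [h1 N le_rfl]
  have h2 : ∑ k ∈ Finset.range (Q μ N), 1 / (4 * A μ (min (N + k) N)) =
      (Q μ N : ℝ) * (1 / (4 * A μ N)) := by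
    rw [Finset.sum_congr rfl fun k _ => by rw [min_eq_right (by omega : N ≤ N + k)]]
    rw [Finset.sum_const, Finset.card_range, nsmul_eq_mul]
  rw [h2, top_eq]
  ring

theorem A_succ (μ k : ℕ) : A μ (k + 1) =
    A μ k * (1 + 1 / ((k : ℝ) + 2)) * (1 / (1 - 1 / (Q μ k : ℝ))) := by
  have h := Q_ge' μ k
  have h1 := th_pos μ k
  have h2 := fac_pos μ k
  have hk : (0 : ℝ) ≤ k := k.cast_nonneg
  have hk2 : (k : ℝ) + 2 ≠ 0 := by positivity
  have hQ : (Q μ (k + 1) : ℝ) = (Q μ k : ℝ) * (1 + 1 / ((k : ℝ) + 2)) := by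
    unfold Q
    push_cast
    field_simp
    ring
  unfold A
  rw [hQ]
  simp only [th]
  generalize 1 - 1 / (Q μ k : ℝ) = w at h2
  field_simp

theorem inv_fac (μ k : ℕ) : 1 / (1 - 1 / (Q μ k : ℝ)) = 1 + 1 / ((Q μ k : ℝ) - 1) := by
  have h := Q_ge' μ k
  have hk : (0 : ℝ) ≤ k := k.cast_nonneg
  have h3 : (Q μ k : ℝ) ≠ 0 := by
    have : 0 < (Q μ k : ℝ) := by linarith
    exact this.ne'
  have h4 : (Q μ k : ℝ) - 1 ≠ 0 := by
    have : 0 < (Q μ k : ℝ) - 1 := by linarith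
    exact this.ne'
  have h5 : 1 - 1 / (Q μ k : ℝ) = ((Q μ k : ℝ) - 1) / (Q μ k : ℝ) := by
    field_simp
  rw [h5]
  field_simp
  ring

theorem A_le_succ (μ k : ℕ) : A μ k ≤ A μ (k + 1) := by
  have hk : (0 : ℝ) ≤ k := k.cast_nonneg
  have h := Q_ge' μ k
  rw [A_succ, inv_fac]
  have h1 : 1 ≤ 1 + 1 / ((k : ℝ) + 2) := by
    have : 0 ≤ 1 / ((k : ℝ) + 2) := by positivity
    linarith
  have h2 : 1 ≤ 1 + 1 / ((Q μ k : ℝ) - 1) := by
    have : 0 ≤ 1 / ((Q μ k : ℝ) - 1) := div_nonneg zero_le_one (by linarith)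
    linarith
  have h3 := A_pos μ k
  calc A μ k = A μ k * 1 * 1 := by ring
    _ ≤ A μ k * (1 + 1 / ((k : ℝ) + 2)) * (1 + 1 / ((Q μ k : ℝ) - 1)) := by
      gcongr

theorem A_succ_le (μ k : ℕ) : A μ (k + 1) ≤ (1 + 1 / ((k : ℝ) + 1)) ^ 2 * A μ k := by
  have hk : (0 : ℝ) ≤ k := k.cast_nonneg
  have h := Q_ge' μ k
  rw [A_succ, inv_fac]
  have h3 := A_pos μ k
  have h1 : 1 / ((k : ℝ) + 2) ≤ 1 / ((k : ℝ) + 1) := by
    apply div_le_div_of_nonneg_left <;> linarith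
  have h2 : 1 / ((Q μ k : ℝ) - 1) ≤ 1 / ((k : ℝ) + 1) := by
    apply div_le_div_of_nonneg_left <;> linarith
  have h4 : 0 ≤ 1 / ((Q μ k : ℝ) - 1) := div_nonneg zero_le_one (by linarith)
  have h5 : 0 ≤ 1 / ((k : ℝ) + 1) := by positivity
  calc A μ k * (1 + 1 / ((k : ℝ) + 2)) * (1 + 1 / ((Q μ k : ℝ) - 1))
      ≤ A μ k * (1 + 1 / ((k : ℝ) + 1)) * (1 + 1 / ((k : ℝ) + 1)) := by
        gcongr
    _ = _ := by ring

theorem A_mono (μ : ℕ) : Monotone (A μ) := monotone_nat_of_le_succ (A_le_succ μ)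

theorem A_add_two_le (μ k : ℕ) : A μ (k + 2) ≤ (1 + 1 / ((k : ℝ) + 1)) ^ 4 * A μ k := by
  have hk : (0 : ℝ) ≤ k := k.cast_nonneg
  have h1 := A_succ_le μ k
  have h2 := A_succ_le μ (k + 1)
  have h3 := A_pos μ k
  have h3' := (A_pos μ (k + 1)).le
  have h4 : 1 / (((k + 1 : ℕ) : ℝ) + 1) ≤ 1 / ((k : ℝ) + 1) := by
    push_cast
    apply div_le_div_of_nonneg_left <;> linarith
  have h5 : 0 ≤ 1 / (((k + 1 : ℕ) : ℝ) + 1) := by positivity
  calc A μ (k + 2) ≤ (1 + 1 / (((k + 1 : ℕ) : ℝ) + 1)) ^ 2 * A μ (k + 1) := h2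
    _ ≤ (1 + 1 / ((k : ℝ) + 1)) ^ 2 * ((1 + 1 / ((k : ℝ) + 1)) ^ 2 * A μ k) := by
        gcongr
    _ = _ := by ring

/-- The relative change over two steps. -/
theorem A_ratio (μ k l : ℕ) (h1 : k ≤ l + 2) (K : ℝ) (hK : 0 < K) (hl : K ≤ (l : ℝ) + 1) :
    A μ k ^ 2 ≤ (1 + 1 / K) ^ 8 * A μ l ^ 2 := by
  have hB : ∀ n : ℕ, K ≤ (n : ℝ) + 1 → (1 + 1 / ((n : ℝ) + 1)) ^ 4 ≤ (1 + 1 / K) ^ 4 := by
    intro n hn
    have h5 : 1 / ((n : ℝ) + 1) ≤ 1 / K := div_le_div_of_nonneg_left zero_le_one hK hn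
    have h6 : 0 ≤ 1 / ((n : ℝ) + 1) := by positivity
    gcongr
  have h3 : A μ k ≤ (1 + 1 / K) ^ 4 * A μ l := by
    have h7 := A_mono μ h1
    have h8 := A_add_two_le μ l
    have h9 := A_pos μ l
    calc A μ k ≤ A μ (l + 2) := h7
      _ ≤ (1 + 1 / ((l : ℝ) + 1)) ^ 4 * A μ l := h8
      _ ≤ _ := mul_le_mul_of_nonneg_right (hB l hl) h9.le
  have h4 := pow_le_pow_left₀ (A_pos μ k).le h3 2
  calc A μ k ^ 2 ≤ ((1 + 1 / K) ^ 4 * A μ l) ^ 2 := h4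
    _ = _ := by ring

end CommCA
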