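import Pool.Agent.Helper72.CommCA.Fin

/-!
# Checks of the definitions

* `f` with derivative `a` is in `DiffR r` iff `a` is Hoelder continuous of exponent `r - 1`, and
  the third component is then unique;
* for `r = 1` the space is homeomorphic to the space of commuting pairs with the `C^1` topology.
-/

open Set Filter Topology

namespace CommCA

open CommC1 (Circ IsDiffeo Diff1 CommPairs IsLift Good exists_good abs_obstruction good_commute)

theorem isQuot_unique {r : ℝ} {a : C(Circ, ℝ)}
    {b b' : BoundedContinuousFunction OffDiag ℝ} (h : IsQuot r a b)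
    (h' : IsQuot r a b') : b = b' := by
  ext z
  have hz : 0 < dist z.1.1 z.1.2 := dist_pos.mpr z.2
  have e1 := h z
  have e2 := h' z
  exact mul_right_cancel₀ (Real.rpow_pos_of_pos hz (r - 1)).ne' (e1.symm.trans e2)

theorem exists_isQuot_iff {r : ℝ} (a : C(Circ, ℝ)) :
    (∃ b : BoundedContinuousFunction OffDiag ℝ, IsQuot r a b) ↔
      ∃ H : ℝ, ∀ x y : Circ, x ≠ y → |a x - a y| ≤ H * dist x y ^ (r - 1) := by
  constructor
  · rintro ⟨b, h2⟩
    refine ⟨‖b‖, fun x y hxy => ?_⟩
    have hz : 0 < dist x y := dist_pos.mpr hxy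
    have e := h2 ⟨(x, y), hxy⟩
    simp only at e
    rw [e, abs_mul, abs_of_pos (Real.rpow_pos_of_pos hz _)]
    exact mul_le_mul_of_nonneg_right (b.norm_coe_le_norm _) (Real.rpow_pos_of_pos hz _).le
  · rintro ⟨H, hH⟩
    have hpos : ∀ z : OffDiag, 0 < dist z.1.1 z.1.2 := fun z => dist_pos.mpr z.2
    have hc : Continuous fun z : OffDiag =>
        (a z.1.1 - a z.1.2) / dist z.1.1 z.1.2 ^ (r - 1) := by
      have c1 : Continuous fun z : OffDiag => z.1.1 := continuous_fst.comp continuous_subtype_val
      have c2 : Continuous fun z : OffDiag => z.1.2 := continuous_snd.comp continuous_subtype_val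
      refine ((a.continuous.comp c1).sub (a.continuous.comp c2)).div
        ((c1.dist c2).rpow_const fun z => Or.inl (hpos z).ne') fun z => ?_
      exact (Real.rpow_pos_of_pos (hpos z) _).ne'
    have hb : ∀ z : OffDiag, ‖(a z.1.1 - a z.1.2) / dist z.1.1 z.1.2 ^ (r - 1)‖ ≤ H := by
      intro z
      rw [Real.norm_eq_abs, abs_div, abs_of_pos (Real.rpow_pos_of_pos (hpos z) _),
        div_le_iff₀ (Real.rpow_pos_of_pos (hpos z) _)]
      exact hH _ _ z.2
    refine ⟨BoundedContinuousFunction.ofNormedAddCommGroup _ hc H hb, fun z => ?_⟩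
    show a z.1.1 - a z.1.2 =
      (a z.1.1 - a z.1.2) / dist z.1.1 z.1.2 ^ (r - 1) * dist z.1.1 z.1.2 ^ (r - 1)
    rw [div_mul_cancel₀]
    exact (Real.rpow_pos_of_pos (hpos z) _).ne'

/-- The differences of a function on the circle. -/
noncomputable def diffs (a : C(Circ, ℝ)) : BoundedContinuousFunction OffDiag ℝ :=
  (BoundedContinuousFunction.mkOfCompact a).compContinuous
      ⟨fun z : OffDiag => z.1.1, continuous_fst.comp continuous_subtype_val⟩ -
    (BoundedContinuousFunction.mkOfCompact a).compContinuous
      ⟨fun z : OffDiag => z.1.2, continuous_snd.comp continuous_subtype_val⟩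

theorem continuous_diffs : Continuous diffs := by
  have h : Continuous fun a : C(Circ, ℝ) => BoundedContinuousFunction.mkOfCompact a :=
    (ContinuousMap.isometryEquivBoundedOfCompact Circ ℝ).isometry.continuous
  exact ((BoundedContinuousFunction.continuous_compContinuous _).comp h).sub
    ((BoundedContinuousFunction.continuous_compContinuous _).comp h)

/-- A `C^1` diffeomorphism as an element of `DiffR 1`. -/
noncomputable def ofDiff1 (p : Diff1) : DiffR 1 := ⟨(p.1, diffs p.1.2), p.2, fun z => by
  show p.1.2 z.1.1 - p.1.2 z.1.2 = (p.1.2 z.1.1 - p.1.2 z.1.2) * dist z.1.1 z.1.2 ^ ((1 : ℝ) - 1)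
  simp⟩

theorem continuous_ofDiff1 : Continuous ofDiff1 := by
  refine Continuous.subtype_mk (Continuous.prodMk continuous_subtype_val ?_) _
  exact continuous_diffs.comp (continuous_snd.comp continuous_subtype_val)

/-- For `r = 1` the space is the space of commuting pairs with the `C^1` topology. -/
noncomputable def homeoOne : CommPairsR 1 ≃ₜ CommPairs where
  toFun := toC1
  invFun q := ⟨(ofDiff1 q.1.1, ofDiff1 q.1.2), q.2⟩
  left_inv q := by
    have key : ∀ p : DiffR 1, ofDiff1 ⟨p.1.1, p.2.1⟩ = p := by
      intro p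
      apply Subtype.ext
      exact Prod.ext rfl (isQuot_unique (ofDiff1 ⟨p.1.1, p.2.1⟩).2.2 p.2.2)
    apply Subtype.ext
    exact Prod.ext (key q.1.1) (key q.1.2)
  right_inv q := rfl
  continuous_toFun := continuous_toC1
  continuous_invFun := by
    refine Continuous.subtype_mk (Continuous.prodMk ?_ ?_) _
    · exact continuous_ofDiff1.comp (continuous_fst.comp continuous_subtype_val)
    · exact continuous_ofDiff1.comp (continuous_snd.comp continuous_subtype_val)

end CommCA
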