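import Pool.Agent.Helper17.CommC1.Top
import Pool.Agent.Helper72.CommCA.Defs

/-!
# Convergence in the space of `C^r` diffeomorphisms
-/

open Set Filter Topology

namespace CommCA

open CommC1 (Circ IsDiffeo Diff1 CommPairs IsLift exists_diff1 tendsto_map_of_uniform
  tendsto_deriv_of_uniform coe_eq_coe_iff)

theorem exists_rep (x y : Circ) : ∃ s t : ℝ, (s : Circ) = x ∧ (t : Circ) = y ∧
    |s - t| = dist x y ∧ |s - t| ≤ 1 / 2 := by
  induction x using QuotientAddGroup.induction_on with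
  | H a =>
    induction y using QuotientAddGroup.induction_on with
    | H b =>
      refine ⟨a - round (a - b), b, ?_, rfl, ?_, ?_⟩
      · exact (coe_eq_coe_iff _ _).mpr ⟨round (a - b), by ring⟩
      · have h : dist ((a : ℝ) : Circ) ((b : ℝ) : Circ) = |(a - b) - round (a - b)| := by
          rw [dist_eq_norm, ← AddCircle.coe_sub]
          exact UnitAddCircle.norm_eq
        have h2 : dist (QuotientAddGroup.mk a : Circ) (QuotientAddGroup.mk b : Circ) =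
          dist ((a : ℝ) : Circ) ((b : ℝ) : Circ) := rfl
        rw [h2, h]
        congr 1
        ring
      · rw [show a - round (a - b) - b = (a - b) - round (a - b) by ring]
        exact abs_sub_round _

theorem exists_diffR {r β : ℝ} (hr : 1 ≤ r) (hβ : r - 1 ≤ β) {F D : ℝ → ℝ} (h : IsLift F D)
    {H : ℝ} (hH : 0 ≤ H) (hD : ∀ x y, |D x - D y| ≤ H * |x - y| ^ β) :
    ∃ p : DiffR r, (∀ x : ℝ, p.1.1.1 (x : Circ) = (F x : Circ)) ∧
      ∀ x : ℝ, p.1.1.2 (x : Circ) = D x := by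
  obtain ⟨p, hp1, hp2⟩ := exists_diff1 h
  have hpos : ∀ z : OffDiag, 0 < dist z.1.1 z.1.2 := fun z => dist_pos.mpr z.2
  have hc : Continuous fun z : OffDiag =>
      (p.1.2 z.1.1 - p.1.2 z.1.2) / dist z.1.1 z.1.2 ^ (r - 1) := by
    have c1 : Continuous fun z : OffDiag => z.1.1 := continuous_fst.comp continuous_subtype_val
    have c2 : Continuous fun z : OffDiag => z.1.2 := continuous_snd.comp continuous_subtype_val
    refine ((p.1.2.continuous.comp c1).sub (p.1.2.continuous.comp c2)).div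
      ((c1.dist c2).rpow_const fun z => Or.inl (hpos z).ne') fun z => ?_
    exact (Real.rpow_pos_of_pos (hpos z) _).ne'
  have hb : ∀ z : OffDiag, ‖(p.1.2 z.1.1 - p.1.2 z.1.2) / dist z.1.1 z.1.2 ^ (r - 1)‖ ≤ H := by
    intro z
    obtain ⟨s, t, hs, ht, hst, hst2⟩ := exists_rep z.1.1 z.1.2
    have hpz := hpos z
    rw [← hst] at hpz ⊢
    rw [← hs, ← ht, hp2, hp2, Real.norm_eq_abs, abs_div,
      abs_of_pos (Real.rpow_pos_of_pos hpz _), div_le_iff₀ (Real.rpow_pos_of_pos hpz _)]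
    refine (hD s t).trans (mul_le_mul_of_nonneg_left ?_ hH)
    exact Real.rpow_le_rpow_of_exponent_ge hpz (hst2.trans (by norm_num)) hβ
  refine ⟨⟨(p.1, BoundedContinuousFunction.ofNormedAddCommGroup _ hc H hb), p.2, fun z => ?_⟩,
    hp1, hp2⟩
  show p.1.2 z.1.1 - p.1.2 z.1.2 =
    (p.1.2 z.1.1 - p.1.2 z.1.2) / dist z.1.1 z.1.2 ^ (r - 1) * dist z.1.1 z.1.2 ^ (r - 1)
  rw [div_mul_cancel₀]
  exact (Real.rpow_pos_of_pos (hpos z) _).ne'

/-- Interpolation between a uniform Hoelder bound and uniform convergence. -/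
theorem hol_conv {r β H : ℝ} (hr : 1 ≤ r) (hβ : r - 1 < β) (hH : 0 ≤ H) {D : ℕ → ℝ → ℝ}
    {D₀ : ℝ → ℝ} (hD : ∀ n x y, |D n x - D n y| ≤ H * |x - y| ^ β)
    (h : TendstoUniformly D D₀ atTop) :
    (∀ x y, |D₀ x - D₀ y| ≤ H * |x - y| ^ β) ∧
    ∀ ε > 0, ∀ᶠ n in atTop, ∀ x y : ℝ, x ≠ y →
      |(D n x - D₀ x) - (D n y - D₀ y)| ≤ ε * |x - y| ^ (r - 1) := by
  have hlim : ∀ x, Tendsto (fun n => D n x) atTop (𝓝 (D₀ x)) := fun x => h.tendsto_at x
  have h0 : ∀ x y, |D₀ x - D₀ y| ≤ H * |x - y| ^ β := fun x y =>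
    le_of_tendsto ((hlim x).sub (hlim y)).abs (Eventually.of_forall fun n => hD n x y)
  refine ⟨h0, fun ε hε => ?_⟩
  set γ := β - (r - 1) with hγ
  have hγ0 : 0 < γ := by rw [hγ]; linarith
  -- a small scale
  have ht : Tendsto (fun δ : ℝ => 2 * H * δ ^ γ) (𝓝[>] 0) (𝓝 0) := by
    have h1 : Tendsto (fun δ : ℝ => δ ^ γ) (𝓝[>] 0) (𝓝 (0 ^ γ)) :=
      ((Real.continuousAt_rpow_const 0 γ (Or.inr hγ0.le)).tendsto).mono_left nhdsWithin_le_nhds
    rw [Real.zero_rpow hγ0.ne'] at h1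
    simpa using h1.const_mul (2 * H)
  obtain ⟨δ, hδ1, hδ0⟩ := ((ht.eventually_lt_const hε).and self_mem_nhdsWithin).exists
  have hδ0' : (0 : ℝ) < δ := hδ0
  have hδp : 0 < δ ^ (r - 1) := Real.rpow_pos_of_pos hδ0' _
  have hev := (Metric.tendstoUniformly_iff.mp h) (ε * δ ^ (r - 1) / 2) (by positivity)
  filter_upwards [hev] with n hn x y hxy
  have hd : 0 < |x - y| := abs_pos.mpr (sub_ne_zero.mpr hxy)
  have hdp : 0 < |x - y| ^ (r - 1) := Real.rpow_pos_of_pos hd _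
  rcases le_total |x - y| δ with hle | hle
  · have e1 : |(D n x - D₀ x) - (D n y - D₀ y)| ≤ 2 * H * |x - y| ^ β := by
      have e2 : (D n x - D₀ x) - (D n y - D₀ y) = (D n x - D n y) - (D₀ x - D₀ y) := by ring
      rw [e2]
      have e3 := abs_sub (D n x - D n y) (D₀ x - D₀ y)
      have e4 := hD n x y
      have e5 := h0 x y
      linarith
    have e6 : |x - y| ^ β = |x - y| ^ γ * |x - y| ^ (r - 1) := by
      rw [← Real.rpow_add hd]
      congr 1
      rw [hγ]; ring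
    have e7 : |x - y| ^ γ ≤ δ ^ γ := Real.rpow_le_rpow hd.le hle hγ0.le
    calc _ ≤ 2 * H * |x - y| ^ β := e1
      _ = 2 * H * |x - y| ^ γ * |x - y| ^ (r - 1) := by rw [e6]; ring
      _ ≤ 2 * H * δ ^ γ * |x - y| ^ (r - 1) := by gcongr
      _ ≤ ε * |x - y| ^ (r - 1) := by gcongr
  · have e1 := hn x
    have e2 := hn y
    rw [Real.dist_eq, abs_sub_comm] at e1 e2
    have e3 := abs_sub (D n x - D₀ x) (D n y - D₀ y)
    have e4 : δ ^ (r - 1) ≤ |x - y| ^ (r - 1) :=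
      Real.rpow_le_rpow hδ0'.le hle (by linarith)
    have e5 := mul_le_mul_of_nonneg_left e4 hε.le
    linarith

theorem tendsto_diffR {r β H : ℝ} (hr : 1 ≤ r) (hβ : r - 1 < β) (hH : 0 ≤ H) {p : ℕ → DiffR r}
    {p₀ : DiffR r} {F D : ℕ → ℝ → ℝ} {F₀ D₀ : ℝ → ℝ}
    (hF : ∀ n (x : ℝ), (p n).1.1.1 (x : Circ) = (F n x : Circ))
    (hD : ∀ n (x : ℝ), (p n).1.1.2 (x : Circ) = D n x)
    (hF₀ : ∀ x : ℝ, p₀.1.1.1 (x : Circ) = (F₀ x : Circ))
    (hD₀ : ∀ x : ℝ, p₀.1.1.2 (x : Circ) = D₀ x)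
    (tF : TendstoUniformly F F₀ atTop) (tD : TendstoUniformly D D₀ atTop)
    (hH' : ∀ n x y, |D n x - D n y| ≤ H * |x - y| ^ β) : Tendsto p atTop (𝓝 p₀) := by
  rw [tendsto_subtype_rng]
  refine Tendsto.prodMk_nhds (Tendsto.prodMk_nhds (tendsto_map_of_uniform hF hF₀ tF)
    (tendsto_deriv_of_uniform hD hD₀ tD)) ?_
  rw [Metric.tendsto_nhds]
  intro ε hε
  filter_upwards [(hol_conv hr hβ hH hH' tD).2 (ε / 2) (by positivity)] with n hn
  refine lt_of_le_of_lt ?_ (by linarith : ε / 2 < ε)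
  rw [BoundedContinuousFunction.dist_le (by positivity)]
  intro z
  have hz : 0 < dist z.1.1 z.1.2 := dist_pos.mpr z.2
  obtain ⟨s, t, hs, ht, hst, -⟩ := exists_rep z.1.1 z.1.2
  have hne : s ≠ t := by
    intro h
    rw [h, sub_self, abs_zero] at hst
    linarith
  have h1 := hn s t hne
  have e1 := (p n).2.2 z
  have e2 := p₀.2.2 z
  have hP : 0 < dist z.1.1 z.1.2 ^ (r - 1) := Real.rpow_pos_of_pos hz _
  rw [← hD n s, ← hD n t, ← hD₀ s, ← hD₀ t, hs, ht, hst] at h1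
  have e3 : ((p n).1.1.2 z.1.1 - p₀.1.1.2 z.1.1) - ((p n).1.1.2 z.1.2 - p₀.1.1.2 z.1.2) =
      ((p n).1.2 z - p₀.1.2 z) * dist z.1.1 z.1.2 ^ (r - 1) := by
    rw [sub_mul, ← e1, ← e2]
    ring
  rw [e3, abs_mul, abs_of_pos hP] at h1
  rw [Real.dist_eq]
  exact le_of_mul_le_mul_right h1 hP

end CommCA
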